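import Pool.Agent.Helper26.TD.Turan

/-!
# TD-4 (MP_277c78_nt): put the proofs into this file (keep the statements and the namespace)
-/

set_option autoImplicit false

namespace Pool.Agent.Helper26.TD

open Finset Filter Topology
open Pool.Agent.Helper16.UB (Admissible M)
open Pool.Agent.Helper34.RB (Bdd)

open Classical in
/-- the `k`-sets of a bounded family of sets -/
private theorem good_of_bdd {N r k : ℕ} {F : Finset (Fin (N + 1)) → Prop} (hF : Bdd r F) :
    Good r k ((powersetCard k (univ : Finset (Fin (N + 1)))).filter F) := by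
  rw [good_iff]
  refine ⟨fun e he => (mem_powersetCard.1 (mem_filter.1 he).1).2, fun T hT S hS hST => ?_⟩
  refine le_trans ?_ (hF T)
  refine le_trans (card_le_card (t := (T.filter fun x => F (T.erase x)).image fun x => T.erase x) ?_) card_image_le
  intro e he'
  have he := hS he'
  have hs := hST e he'
  rw [mem_filter, mem_powersetCard] at he
  obtain ⟨⟨-, hc⟩, hFe⟩ := he
  have h1 : (T \ e).card = 1 := by
    rw [card_sdiff_of_subset hs, hT, hc]
    omega
  obtain ⟨x, hx⟩ := card_eq_one.1 h1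
  have hx1 : x ∈ T \ e := by
    rw [hx]
    exact mem_singleton_self x
  have hx2 := mem_sdiff.1 hx1
  have h2 : T.erase x = e := by
    ext y
    rw [mem_erase]
    constructor
    · rintro ⟨hy1, hy2⟩
      by_contra hy3
      have h3 : y ∈ T \ e := mem_sdiff.2 ⟨hy2, hy3⟩
      rw [hx, mem_singleton] at h3
      exact hy1 h3
    · intro hy
      refine ⟨?_, hs hy⟩
      rintro rfl
      exact hx2.2 hy
  rw [mem_image]
  refine ⟨x, mem_filter.2 ⟨hx2.1, ?_⟩, h2⟩
  rw [h2]
  exact hFe

theorem td_ge {r : ℕ} (hr : 2 ≤ r) :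
    ∃ c : ℝ, 0 < c ∧ ∃ k0 : ℕ, ∀ k : ℕ, k0 ≤ k → c / (k : ℝ) ≤ td r k := by
  classical
  obtain ⟨c', hc, m0, h⟩ := Pool.Agent.Helper81.RV.Fam.all Pool.Agent.Helper81.RV.fam2 Pool.Agent.Helper81.RV.fam3
    Pool.Agent.Helper81.RV.fam4 r hr
  have hr' : (2 : ℝ) ≤ r := by exact_mod_cast hr
  have hc0 : 0 < c' := lt_of_le_of_lt (div_nonneg (by linarith) (by norm_num)) hc
  refine ⟨c', hc0, max m0 1, fun k hk => ?_⟩
  have hk1 : m0 ≤ k := le_trans (le_max_left _ _) hk
  have hk2 : 1 ≤ k := le_trans (le_max_right _ _) hk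
  have hkpos : (0 : ℝ) < k := by exact_mod_cast hk2
  refine ge_of_tendsto (tendsto_td r k) ?_
  filter_upwards [eventually_ge_atTop (max k 1)] with n hn
  have hn1 : k ≤ n := le_trans (le_max_left _ _) hn
  have hn2 : 1 ≤ n := le_trans (le_max_right _ _) hn
  obtain ⟨N, rfl⟩ := Nat.exists_eq_add_of_le' hn2
  have hC : (0 : ℝ) < (N + 1).choose k := by exact_mod_cast Nat.choose_pos hn1
  -- the enumeration of the `k`-sets
  let U : Finset (Finset (Fin (N + 1))) := powersetCard k univ
  have hU : U.card = (N + 1).choose k := by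
    show (powersetCard k (univ : Finset (Fin (N + 1)))).card = _
    rw [card_powersetCard, card_univ, Fintype.card_fin]
  let e := Fintype.equivFin (Finset (Fin (N + 1)))
  let g : Finset (Fin (N + 1)) → ℕ := fun s => (e s : ℕ)
  have hg : Function.Injective g := fun s t hst => e.injective (Fin.ext hst)
  let S : ℕ → Finset (Fin (N + 1)) := fun i =>
    if hi : i < Fintype.card (Finset (Fin (N + 1))) then e.symm ⟨i, hi⟩ else ∅
  have hS : ∀ s, S (g s) = s := fun s => by
    have h1 : g s < Fintype.card (Finset (Fin (N + 1))) := (e s).2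
    show (if hi : g s < Fintype.card (Finset (Fin (N + 1))) then e.symm ⟨g s, hi⟩ else ∅) = s
    rw [dif_pos h1]
    exact e.symm_apply_apply s
  obtain ⟨F, hF, h1⟩ := h N (U.image g) S (fun _ => 1) (fun _ _ => zero_le_one) k hk1 (fun i hi => by
    obtain ⟨s, hs, rfl⟩ := mem_image.1 hi
    rw [hS]
    exact ((mem_powersetCard.1 hs).2).le)
  have e1 : ∑ i ∈ U.image g, (1 : ℝ) = ((N + 1).choose k : ℝ) := by
    rw [sum_const, card_image_of_injective _ hg, hU, nsmul_eq_mul, mul_one]
  have e2 : (U.image g).filter (fun i => F (S i)) = (U.filter F).image g := by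
    ext i
    rw [mem_filter, mem_image, mem_image]
    constructor
    · rintro ⟨⟨s, hs, rfl⟩, h2⟩
      rw [hS] at h2
      exact ⟨s, mem_filter.2 ⟨hs, h2⟩, rfl⟩
    · rintro ⟨s, hs, rfl⟩
      rw [mem_filter] at hs
      rw [hS]
      exact ⟨⟨s, hs.1, rfl⟩, hs.2⟩
  have e3 : ∑ i ∈ (U.image g).filter (fun i => F (S i)), (1 : ℝ) = ((U.filter F).card : ℝ) := by
    rw [e2, sum_const, card_image_of_injective _ hg, nsmul_eq_mul, mul_one]
  have h2 : c' * ((N + 1).choose k : ℝ) ≤ k * ((U.filter F).card : ℝ) := by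
    rw [← e1, ← e3]
    exact h1
  have h3 : ((U.filter F).card : ℝ) ≤ ex r k (N + 1) := by
    exact_mod_cast le_ex (good_of_bdd (k := k) hF)
  rw [div_le_div_iff₀ hkpos hC]
  have h4 : (k : ℝ) * ((U.filter F).card : ℝ) ≤ k * ex r k (N + 1) := mul_le_mul_of_nonneg_left h3 hkpos.le
  linarith

end Pool.Agent.Helper26.TD
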