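import Pool.Agent.Helper26.TD.Defs

/-!
# TD-9 (MP_277c78_nt): the sums over squarefree products of primes, and a tail of the exponential series
-/

set_option autoImplicit false

namespace Pool.Agent.Helper26.TD

open Finset Filter Topology
open Pool.Agent.Helper16.UB (Admissible M)
open Pool.Agent.Helper34.RB (Bdd)

theorem t9_exp_sub_sq_le {x : ℝ} (hx : 0 ≤ x) : Real.exp (x - x ^ 2) ≤ 1 + x := by
  have h1 : 1 - (x - x ^ 2) ≤ Real.exp (-(x - x ^ 2)) := Real.one_sub_le_exp_neg _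
  have h2 : 0 < 1 - (x - x ^ 2) := by nlinarith [sq_nonneg (x - 1 / 2)]
  have h3 : Real.exp (x - x ^ 2) * Real.exp (-(x - x ^ 2)) = 1 := by
    rw [← Real.exp_add]
    simp
  have h4 : 0 < Real.exp (x - x ^ 2) := Real.exp_pos _
  have h5 : Real.exp (x - x ^ 2) * (1 - (x - x ^ 2)) ≤ 1 := by
    exact (mul_le_mul_of_nonneg_left h1 h4.le).trans h3.le
  have h6 : 1 ≤ (1 + x) * (1 - (x - x ^ 2)) := by
    have : (1 + x) * (1 - (x - x ^ 2)) = 1 + x ^ 3 := by ring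
    rw [this]
    have := pow_nonneg hx 3
    linarith
  exact le_of_mul_le_mul_right (h5.trans h6) h2

theorem t9_sum_powerset_eq (P : Finset ℕ) (f : ℕ → ℝ) :
    ∑ s ∈ P.powerset, ∏ p ∈ s, f p = ∏ p ∈ P, (1 + f p) := by
  rw [Finset.prod_one_add]

theorem t9_sum_sq_le {z y : ℕ} (hz : 1 ≤ z) : ∑ p ∈ PP z y, (1 / (p : ℝ)) ^ 2 ≤ 1 / (z : ℝ) := by
  rcases le_total z y with h | h
  · have h1 : PP z y ⊆ Ioc z y := by
      intro p hp
      unfold PP at hp
      rw [mem_filter, mem_Icc] at hp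
      rw [mem_Ioc]
      exact ⟨hp.2.2, hp.1.2⟩
    have h2 : ∑ p ∈ PP z y, (1 / (p : ℝ)) ^ 2 ≤ ∑ p ∈ Ioc z y, (1 / (p : ℝ)) ^ 2 :=
      sum_le_sum_of_subset_of_nonneg h1 fun i _ _ => by positivity
    have h3 := sum_Ioc_inv_sq_le_sub (α := ℝ) (k := z) (n := y) (by omega) h
    have h4 : ∑ p ∈ Ioc z y, (1 / (p : ℝ)) ^ 2 = ∑ i ∈ Ioc z y, ((i : ℝ) ^ 2)⁻¹ :=
      sum_congr rfl fun i _ => by rw [one_div, inv_pow]
    rw [h4] at h2
    have h5 : (0 : ℝ) ≤ (y : ℝ)⁻¹ := by positivity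
    rw [one_div]
    linarith
  · have h1 : PP z y = ∅ := by
      unfold PP
      rw [filter_eq_empty_iff]
      intro p hp
      rw [mem_Icc] at hp
      omega
    rw [h1, sum_empty]
    positivity

theorem DD_ge {z y K : ℕ} (hz : 1 ≤ z) :
    Real.exp (LL (PP z y)) * Real.exp (-(1 / (z : ℝ))) - Real.exp (2 * LL (PP z y)) / 2 ^ K ≤
      DD (PP z y) K := by
  set P := PP z y with hP
  have e1 : ∑ s ∈ P.powerset, ∏ p ∈ s, 1 / (p : ℝ) = ∏ p ∈ P, (1 + 1 / (p : ℝ)) :=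
    t9_sum_powerset_eq P _
  have h1 : Real.exp (LL P) * Real.exp (-(1 / (z : ℝ))) ≤ ∏ p ∈ P, (1 + 1 / (p : ℝ)) := by
    have h2 : Real.exp (LL P) * Real.exp (-(1 / (z : ℝ))) ≤
        Real.exp (∑ p ∈ P, (1 / (p : ℝ) - (1 / (p : ℝ)) ^ 2)) := by
      rw [← Real.exp_add]
      apply Real.exp_le_exp.2
      rw [sum_sub_distrib]
      have := t9_sum_sq_le (z := z) (y := y) hz
      unfold LL
      linarith
    refine h2.trans ?_
    rw [Real.exp_sum]
    exact prod_le_prod (fun p _ => (Real.exp_pos _).le) fun p _ => t9_exp_sub_sq_le (by positivity)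
  have h2 : ∑ s ∈ P.powerset.filter (fun s => ¬ s.card ≤ K), ∏ p ∈ s, 1 / (p : ℝ) ≤
      Real.exp (2 * LL P) / 2 ^ K := by
    have h3 : ∀ s ∈ P.powerset.filter (fun s => ¬ s.card ≤ K), ∏ p ∈ s, 1 / (p : ℝ) ≤
        (∏ p ∈ s, 2 / (p : ℝ)) / 2 ^ K := by
      intro s hs
      rw [mem_filter] at hs
      rw [le_div_iff₀ (by positivity)]
      have h4 : ∏ p ∈ s, 2 / (p : ℝ) = 2 ^ s.card * ∏ p ∈ s, 1 / (p : ℝ) := by
        rw [← prod_const, ← prod_mul_distrib]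
        exact prod_congr rfl fun p _ => by ring
      rw [h4, mul_comm]
      refine mul_le_mul_of_nonneg_right ?_ (prod_nonneg fun p _ => by positivity)
      exact pow_le_pow_right₀ (by norm_num) (by omega)
    refine (sum_le_sum h3).trans ?_
    rw [← sum_div]
    refine div_le_div_of_nonneg_right ?_ (by positivity)
    have h5 : ∑ s ∈ P.powerset.filter (fun s => ¬ s.card ≤ K), ∏ p ∈ s, 2 / (p : ℝ) ≤
        ∑ s ∈ P.powerset, ∏ p ∈ s, 2 / (p : ℝ) :=
      sum_le_sum_of_subset_of_nonneg (filter_subset _ _) fun s _ _ =>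
        prod_nonneg fun p _ => by positivity
    refine h5.trans ?_
    rw [t9_sum_powerset_eq P (fun p => 2 / (p : ℝ))]
    unfold LL
    rw [mul_sum, Real.exp_sum]
    refine prod_le_prod (fun p _ => by positivity) fun p _ => ?_
    have := Real.add_one_le_exp (2 * (1 / (p : ℝ)))
    have e : 2 * (1 / (p : ℝ)) = 2 / (p : ℝ) := by ring
    rw [e] at this ⊢
    linarith
  have e2 : DD P K + ∑ s ∈ P.powerset.filter (fun s => ¬ s.card ≤ K), ∏ p ∈ s, 1 / (p : ℝ) =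
      ∑ s ∈ P.powerset, ∏ p ∈ s, 1 / (p : ℝ) := by
    unfold DD
    exact sum_filter_add_sum_filter_not _ _ _
  linarith

theorem DD_le (P : Finset ℕ) (K : ℕ) : DD P K ≤ Real.exp (LL P) := by
  unfold DD
  have h5 : ∑ s ∈ P.powerset.filter (fun s => s.card ≤ K), ∏ p ∈ s, 1 / (p : ℝ) ≤
      ∑ s ∈ P.powerset, ∏ p ∈ s, 1 / (p : ℝ) :=
    sum_le_sum_of_subset_of_nonneg (filter_subset _ _) fun s _ _ =>
      prod_nonneg fun p _ => by positivity
  refine h5.trans ?_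
  rw [t9_sum_powerset_eq P (fun p => 1 / (p : ℝ))]
  unfold LL
  rw [Real.exp_sum]
  refine prod_le_prod (fun p _ => by positivity) fun p _ => ?_
  have := Real.add_one_le_exp (1 / (p : ℝ))
  linarith

theorem t9_exp_neg_le {δ : ℝ} (hδ : 0 ≤ δ) : Real.exp (-δ) ≤ 1 - δ + δ ^ 2 / 2 := by
  have h1 := Real.quadratic_le_exp_of_nonneg hδ
  have h2 : Real.exp (-δ) * Real.exp δ = 1 := by
    rw [← Real.exp_add]
    simp
  have h3 : 0 < Real.exp (-δ) := Real.exp_pos _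
  have h4 : 0 < 1 + δ + δ ^ 2 / 2 := by positivity
  have h5 : Real.exp (-δ) * (1 + δ + δ ^ 2 / 2) ≤ 1 := by
    exact (mul_le_mul_of_nonneg_left h1 h3.le).trans h2.le
  have h6 : 1 ≤ (1 - δ + δ ^ 2 / 2) * (1 + δ + δ ^ 2 / 2) := by
    have : (1 - δ + δ ^ 2 / 2) * (1 + δ + δ ^ 2 / 2) = 1 + δ ^ 4 / 4 := by ring
    rw [this]
    have := pow_nonneg hδ 4
    linarith
  exact le_of_mul_le_mul_right (h5.trans h6) h4

theorem low_tail {L δ : ℝ} (hL : 0 ≤ L) (hδ : 0 ≤ δ) {k0 : ℕ} (h : (k0 : ℝ) ≤ (1 - δ) * L) :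
    ∑ k ∈ range k0, L ^ k / (k.factorial : ℝ) ≤ Real.exp L * Real.exp (-(δ ^ 2 * L / 2)) := by
  have h1 : ∑ k ∈ range k0, L ^ k / (k.factorial : ℝ) ≤
      ∑ k ∈ range k0, Real.exp (δ * k0) * ((L * Real.exp (-δ)) ^ k / (k.factorial : ℝ)) := by
    refine sum_le_sum fun k hk => ?_
    rw [mem_range] at hk
    have e1 : Real.exp (δ * k0) * ((L * Real.exp (-δ)) ^ k / (k.factorial : ℝ)) =
        (Real.exp (δ * k0) * Real.exp (-δ) ^ k) * (L ^ k / (k.factorial : ℝ)) := by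
      rw [mul_pow]
      ring
    rw [e1]
    refine le_mul_of_one_le_left (by positivity) ?_
    rw [← Real.exp_nat_mul, ← Real.exp_add]
    apply Real.one_le_exp
    have h2 : (k : ℝ) ≤ k0 := by exact_mod_cast hk.le
    nlinarith
  refine h1.trans ?_
  rw [← mul_sum]
  have h2 : ∑ k ∈ range k0, (L * Real.exp (-δ)) ^ k / (k.factorial : ℝ) ≤
      Real.exp (L * Real.exp (-δ)) := Real.sum_le_exp_of_nonneg (by positivity) _
  refine (mul_le_mul_of_nonneg_left h2 (Real.exp_pos _).le).trans ?_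
  rw [← Real.exp_add, ← Real.exp_add]
  apply Real.exp_le_exp.2
  have h3 := mul_le_mul_of_nonneg_left (t9_exp_neg_le hδ) hL
  have h4 := mul_le_mul_of_nonneg_left h hδ
  nlinarith

end Pool.Agent.Helper26.TD
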