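import Pool.Agent.Helper26.TD.Split
import Pool.Agent.Helper26.TD.Tails
import Pool.Agent.Helper26.TD.FromFam
import Pool.Agent.Helper16.UB.Final

/-!
# TD-10 (MP_277c78_nt): put the proofs into this file (keep the statements and the namespace)
-/

set_option autoImplicit false

namespace Pool.Agent.Helper26.TD

open Finset Filter Topology
open Pool.Agent.Helper16.UB (Admissible M)
open Pool.Agent.Helper34.RB (Bdd)

theorem LL_le_W (z y : ℕ) : LL (PP z y) ≤ Pool.Agent.Helper16.UB.W y := by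
  unfold LL Pool.Agent.Helper16.UB.W PP Pool.Agent.Helper16.UB.PL
  apply Finset.sum_le_sum_of_subset_of_nonneg
  · intro p hp
    rw [mem_filter] at *
    exact ⟨hp.1, hp.2.1⟩
  · intro i _ _
    positivity

theorem W_le_LL (z y : ℕ) :
    Pool.Agent.Helper16.UB.W y ≤ LL (PP z y) + Pool.Agent.Helper16.UB.W z := by
  have h : Pool.Agent.Helper16.UB.PL y ⊆ PP z y ∪ Pool.Agent.Helper16.UB.PL z := by
    intro p hp
    rw [Pool.Agent.Helper16.UB.mem_PL] at hp
    rw [mem_union, Pool.Agent.Helper16.UB.mem_PL]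
    by_cases hz : p ≤ z
    · exact Or.inr ⟨hz, hp.2⟩
    · left
      unfold PP
      rw [mem_filter, mem_Icc]
      exact ⟨⟨hp.2.pos, hp.1⟩, hp.2, not_le.1 hz⟩
  unfold Pool.Agent.Helper16.UB.W LL
  calc ∑ p ∈ Pool.Agent.Helper16.UB.PL y, 1 / (p : ℝ)
      ≤ ∑ p ∈ PP z y ∪ Pool.Agent.Helper16.UB.PL z, 1 / (p : ℝ) := by
        apply Finset.sum_le_sum_of_subset_of_nonneg h
        intro i _ _
        positivity
    _ ≤ ∑ p ∈ PP z y, 1 / (p : ℝ) + ∑ p ∈ Pool.Agent.Helper16.UB.PL z, 1 / (p : ℝ) := by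
        rw [← Finset.sum_union_inter]
        have : 0 ≤ ∑ p ∈ PP z y ∩ Pool.Agent.Helper16.UB.PL z, 1 / (p : ℝ) :=
          Finset.sum_nonneg fun i _ => by positivity
        linarith

theorem W_mono' {y N : ℕ} (h : y ≤ N) :
    Pool.Agent.Helper16.UB.W y ≤ Pool.Agent.Helper16.UB.W N := by
  unfold Pool.Agent.Helper16.UB.W
  apply Finset.sum_le_sum_of_subset_of_nonneg
  · intro p hp
    rw [Pool.Agent.Helper16.UB.mem_PL] at *
    exact ⟨hp.1.trans h, hp.2⟩
  · intro i _ _
    positivity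

/-- the error factor -/
noncomputable def uu (c C a b e : ℝ) (x : ℝ) : ℝ :=
  (1 + Real.exp (-x)) * (1 + x / c * Real.exp (-(a * x))) / (e - Real.exp (C - b * x)) +
    (x / c * Real.exp (-x) + 4 / (c * x))

theorem tendsto_x_exp {a : ℝ} (ha : 0 < a) :
    Tendsto (fun x : ℝ => x * Real.exp (-(a * x))) atTop (𝓝 0) := by
  have h1 : Tendsto (fun x : ℝ => a * x) atTop atTop := tendsto_id.const_mul_atTop ha
  have h2 := (Real.tendsto_pow_mul_exp_neg_atTop_nhds_zero 1).comp h1
  have h3 := h2.const_mul (1 / a)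
  rw [mul_zero] at h3
  refine h3.congr fun x => ?_
  show 1 / a * ((a * x) ^ 1 * Real.exp (-(a * x))) = x * Real.exp (-(a * x))
  rw [pow_one]
  field_simp

theorem tendsto_uu {c C a b e : ℝ} (hc : 0 < c) (ha : 0 < a) (hb : 0 < b) (he : 0 < e) :
    Tendsto (uu c C a b e) atTop (𝓝 (1 / e)) := by
  have h1 : Tendsto (fun x : ℝ => Real.exp (-x)) atTop (𝓝 0) :=
    Real.tendsto_exp_neg_atTop_nhds_zero
  have h2 : Tendsto (fun x : ℝ => x / c * Real.exp (-(a * x))) atTop (𝓝 0) := by
    have h := (tendsto_x_exp ha).const_mul (1 / c)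
    rw [mul_zero] at h
    refine h.congr fun x => ?_
    ring
  have h3 : Tendsto (fun x : ℝ => Real.exp (C - b * x)) atTop (𝓝 0) := by
    apply Real.tendsto_exp_atBot.comp
    have h : Tendsto (fun x : ℝ => b * x) atTop atTop := tendsto_id.const_mul_atTop hb
    exact tendsto_atBot_add_const_left _ C (tendsto_neg_atTop_atBot.comp h) |>.congr
      fun x => by show C + -(b * x) = C - b * x; ring
  have h4 : Tendsto (fun x : ℝ => x / c * Real.exp (-x)) atTop (𝓝 0) := by
    have h := (tendsto_x_exp one_pos).const_mul (1 / c)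
    rw [mul_zero] at h
    refine h.congr fun x => ?_
    rw [one_mul]
    ring
  have h5 : Tendsto (fun x : ℝ => 4 / (c * x)) atTop (𝓝 0) :=
    (tendsto_id.const_mul_atTop hc).const_div_atTop 4
  have h6 := (((h1.const_add 1).mul (h2.const_add 1)).div (h3.const_sub e)
    (by simpa using he.ne')).add (h4.add h5)
  have e0 : uu c C a b e = fun x => (1 + Real.exp (-x)) * (1 + x / c * Real.exp (-(a * x))) /
      (e - Real.exp (C - b * x)) + (x / c * Real.exp (-x) + 4 / (c * x)) := rfl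
  rw [e0]
  simpa using h6

/-- the last step -/
theorem last_step {m q D E G t s Y x c C a b e τ : ℝ} (hq : 0 < q)
    (hE : 0 < E) (hG : 0 < G) (hx : 0 < x) (hc : 0 < c) (ht : c / x ≤ t)
    (h1 : m * q * D ≤ (1 + G) * (t * E + s) + (1 + Y) * D)
    (h2 : E * e - E * τ ≤ D) (h3 : s ≤ E * Real.exp (-(a * x)))
    (h4 : τ ≤ Real.exp (C - b * x)) (h5 : 0 < e - Real.exp (C - b * x))
    (h6 : Y ≤ 4 * G / x ^ 2) (h7 : Real.exp (-x) = 1 / G) :
    m * q ≤ t * G * uu c C a b e x := by
  have htp : 0 < t := lt_of_lt_of_le (div_pos hc hx) ht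
  have hxt : 1 ≤ x / c * t := by
    have := mul_le_mul_of_nonneg_left ht (div_pos hx hc).le
    have e1 : x / c * (c / x) = 1 := by field_simp
    linarith
  set w := Real.exp (-(a * x)) with hw
  have hwp : 0 < w := Real.exp_pos _
  set d := e - Real.exp (C - b * x) with hd
  have hD : E * d ≤ D := by
    have : E * τ ≤ E * Real.exp (C - b * x) := mul_le_mul_of_nonneg_left h4 hE.le
    have e1 : E * d = E * e - E * Real.exp (C - b * x) := by rw [hd]; ring
    linarith
  have hDp : 0 < D := lt_of_lt_of_le (mul_pos hE h5) hD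
  -- divide by `D`
  have h8 : m * q ≤ (1 + G) * (t + w) / d + (1 + Y) := by
    have h9 : (1 + G) * (t * E + s) ≤ (1 + G) * (t + w) / d * D := by
      have h10 : (1 + G) * (t * E + s) ≤ (1 + G) * ((t + w) * E) := by
        apply mul_le_mul_of_nonneg_left _ (by linarith)
        nlinarith
      have h11 : (1 + G) * ((t + w) * E) = (1 + G) * (t + w) / d * (E * d) := by
        field_simp
      rw [h11] at h10
      refine h10.trans (mul_le_mul_of_nonneg_left hD ?_)
      positivity
    have h12 : m * q * D ≤ ((1 + G) * (t + w) / d + (1 + Y)) * D := by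
      rw [add_mul]
      linarith
    exact le_of_mul_le_mul_right h12 hDp
  have h13 : (1 + G) * (t + w) / d ≤ t * G * ((1 + Real.exp (-x)) * (1 + x / c * w) / d) := by
    have h14 : t + w ≤ t * (1 + x / c * w) := by
      have : w * 1 ≤ w * (x / c * t) := mul_le_mul_of_nonneg_left hxt hwp.le
      nlinarith
    have h15 : (1 + G) = G * (1 + Real.exp (-x)) := by
      rw [h7]
      field_simp
      ring
    have h16 : (1 + G) * (t + w) ≤ G * (1 + Real.exp (-x)) * (t * (1 + x / c * w)) := by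
      rw [h15]
      apply mul_le_mul_of_nonneg_left h14
      have := Real.exp_pos (-x)
      positivity
    calc (1 + G) * (t + w) / d ≤ G * (1 + Real.exp (-x)) * (t * (1 + x / c * w)) / d :=
          div_le_div_of_nonneg_right h16 h5.le
      _ = t * G * ((1 + Real.exp (-x)) * (1 + x / c * w) / d) := by ring
  have h17 : 1 + Y ≤ t * G * (x / c * Real.exp (-x) + 4 / (c * x)) := by
    rw [h7]
    have h18 : 1 + Y ≤ 1 + 4 * G / x ^ 2 := by linarith
    have h19 : 0 ≤ 1 + 4 * G / x ^ 2 := by positivity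
    have h20 : (1 + 4 * G / x ^ 2) * 1 ≤ (1 + 4 * G / x ^ 2) * (x / c * t) :=
      mul_le_mul_of_nonneg_left hxt h19
    have h21 : (1 + 4 * G / x ^ 2) * (x / c * t) = t * G * (x / c * (1 / G) + 4 / (c * x)) := by
      field_simp
    linarith
  have h22 : t * G * uu c C a b e x = t * G * ((1 + Real.exp (-x)) * (1 + x / c * w) / d) +
      t * G * (x / c * Real.exp (-x) + 4 / (c * x)) := by
    unfold uu
    ring
  rw [h22]
  linarith

theorem exists_z {ε : ℝ} (hε : 0 < ε) :
    ∃ z : ℕ, 2 ≤ z ∧ 1 / Real.exp (-(1 / (z : ℝ))) < (1 + ε) * (1 - 1 / (z : ℝ)) := by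
  have h1 : Tendsto (fun z : ℕ => 1 / (z : ℝ)) atTop (𝓝 0) := tendsto_one_div_atTop_nhds_zero_nat
  have h2 : Tendsto (fun z : ℕ => 1 / Real.exp (-(1 / (z : ℝ)))) atTop (𝓝 1) := by
    have h := (Real.continuous_exp.tendsto (-0)).comp h1.neg
    have h3 := h.inv₀ (by positivity)
    simpa [Function.comp_def, one_div] using h3
  have h3 : Tendsto (fun z : ℕ => (1 + ε) * (1 - 1 / (z : ℝ))) atTop (𝓝 (1 + ε)) := by
    have h := (h1.const_sub 1).const_mul (1 + ε)
    simpa using h
  have h4 := h2.eventually_lt h3 (by linarith)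
  obtain ⟨z, hz⟩ := (h4.and (eventually_ge_atTop 2)).exists
  exact ⟨z, hz.2, hz.1⟩

theorem upper_half {r : ℕ} (hr : 2 ≤ r) {ε : ℝ} (hε : 0 < ε) (hε1 : ε < 1) :
    ∀ᶠ N : ℕ in atTop, M r N ≤ (1 + ε) * td r ⌊(1 - ε) * Real.log (Real.log N)⌋₊ * Real.log N := by
  obtain ⟨c, hc, k1, hk1⟩ := td_ge hr
  obtain ⟨C0, hC0⟩ := Pool.Agent.Helper16.UB.exists_W_le
  obtain ⟨z, hz2, hz⟩ := exists_z hε
  have hl2 : 0 < Real.log 2 := Real.log_pos one_lt_two
  have hl2' := Real.log_two_gt_d9
  set Wz := Pool.Agent.Helper16.UB.W z with hWz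
  set e := Real.exp (-(1 / (z : ℝ))) with he
  have hep : 0 < e := Real.exp_pos _
  have hzR : (2 : ℝ) ≤ z := by exact_mod_cast hz2
  have hq : 0 < 1 - 1 / (z : ℝ) := by
    have : 1 / (z : ℝ) ≤ 1 / 2 := one_div_le_one_div_of_le two_pos hzR
    linarith
  set a := (ε / 2) ^ 2 * (1 - ε / 2) / 2 with ha
  have hap : 0 < a := by
    have : 0 < 1 - ε / 2 := by linarith
    positivity
  set b := 4 * Real.log 2 - 1 with hb
  have hbp : 0 < b := by linarith
  set C := C0 + Real.log 2 with hC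
  -- what is needed for large `x`
  have T1 := tendsto_uu (C := C) hc hap hbp hep
  have E1 : ∀ᶠ x : ℝ in atTop, uu c C a b e x < (1 + ε) * (1 - 1 / (z : ℝ)) :=
    T1.eventually_lt_const hz
  have E2 : ∀ᶠ x : ℝ in atTop, Real.exp (C - b * x) < e := by
    have h3 : Tendsto (fun x : ℝ => Real.exp (C - b * x)) atTop (𝓝 0) := by
      apply Real.tendsto_exp_atBot.comp
      have h : Tendsto (fun x : ℝ => b * x) atTop atTop := tendsto_id.const_mul_atTop hbp
      exact tendsto_atBot_add_const_left _ C (tendsto_neg_atTop_atBot.comp h) |>.congr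
        fun x => by show C + -(b * x) = C - b * x; ring
    exact h3.eventually_lt_const hep
  have E3 : ∀ᶠ x : ℝ in atTop, 3 * Real.log x + (Real.log 2 + 1 + Wz) ≤ ε / 2 * x := by
    have h1 : ∀ᶠ x : ℝ in atTop, ‖Real.log x‖ ≤ ε / 12 * ‖x‖ := by
      have := Real.isLittleO_log_id_atTop.def (show 0 < ε / 12 by positivity)
      simpa using this
    have h2 : ∀ᶠ x : ℝ in atTop, (Real.log 2 + 1 + Wz) * (4 / ε) ≤ x := eventually_ge_atTop _
    filter_upwards [h1, h2, eventually_ge_atTop 1] with x hx1 hx2 hx3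
    rw [Real.norm_of_nonneg (Real.log_nonneg hx3), Real.norm_of_nonneg (by linarith)] at hx1
    have h3 : Real.log 2 + 1 + Wz ≤ ε / 4 * x := by
      have := mul_le_mul_of_nonneg_left hx2 (show 0 ≤ ε / 4 by positivity)
      have e1 : ε / 4 * ((Real.log 2 + 1 + Wz) * (4 / ε)) = Real.log 2 + 1 + Wz := by
        field_simp
      linarith
    linarith
  have E4 : ∀ᶠ x : ℝ in atTop, 2 * Real.log 2 * x ^ 3 ≤ Real.exp x := by
    have h := Real.tendsto_pow_mul_exp_neg_atTop_nhds_zero 3
    have h2 := h.eventually_lt_const (show (0 : ℝ) < 1 / (2 * Real.log 2) by positivity)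
    filter_upwards [h2] with x hx
    rw [Real.exp_neg, ← div_eq_mul_inv, div_lt_div_iff₀ (Real.exp_pos x) (by positivity)] at hx
    linarith
  have E5 : ∀ᶠ x : ℝ in atTop, 2 ≤ x ∧ ((k1 : ℝ) + 1) / (1 - ε) ≤ x :=
    (eventually_ge_atTop _).and (eventually_ge_atTop _)
  have hll := Pool.Agent.Helper16.UB.tendsto_ll
  filter_upwards [hll.eventually E1, hll.eventually E2, hll.eventually E3, hll.eventually E4,
    hll.eventually E5, eventually_ge_atTop 3] with N f1 f2 f3 f4 f5 hN3
  have hxdef : Pool.Agent.Helper16.UB.ll N = Real.log (Real.log N) := rfl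
  set x := Pool.Agent.Helper16.UB.ll N with hx
  rw [← hxdef]
  obtain ⟨hx2, hxk⟩ := f5
  have hNR : (3 : ℝ) ≤ N := by exact_mod_cast hN3
  have hNpos : (0 : ℝ) < N := by linarith
  set G := Real.log N with hG
  have hGp : 0 < G := Real.log_pos (by linarith)
  have hGx : Real.exp x = G := by rw [hxdef, Real.exp_log hGp]
  have hexpG : Real.exp G = N := by rw [hG, Real.exp_log hNpos]
  have hxp : 0 < x := by linarith
  -- the parameters
  set X := G / x ^ 3 with hX
  have hX2 : 2 * Real.log 2 ≤ X := by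
    rw [hX, le_div_iff₀ (by positivity), ← hGx]
    exact f4
  have hXp : 0 < X := by linarith
  have hXG : X ≤ G := by
    rw [hX]
    apply div_le_self hGp.le
    exact one_le_pow₀ (by linarith)
  set y := ⌊Real.exp X⌋₊ with hy
  set K := ⌊4 * x⌋₊ with hK
  set k0 := ⌊(1 - ε) * x⌋₊ with hk0
  have hexpX : 4 ≤ Real.exp X := by
    have h : Real.exp (2 * Real.log 2) ≤ Real.exp X := Real.exp_le_exp.2 hX2
    have h' : Real.exp (2 * Real.log 2) = 4 := by
      rw [two_mul, Real.exp_add, Real.exp_log two_pos]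
      norm_num
    linarith
  have hyX : (y : ℝ) ≤ Real.exp X := Nat.floor_le (Real.exp_pos _).le
  have hyX' : Real.exp X < y + 1 := Nat.lt_floor_add_one _
  have hy3 : (3 : ℝ) < y := by linarith
  have hy2 : 2 ≤ y := by
    have : (2 : ℝ) < y := by linarith
    exact_mod_cast this.le
  have hypos : (0 : ℝ) < y := by linarith
  have hKx : (K : ℝ) ≤ 4 * x := Nat.floor_le (by linarith)
  have hKx' : 4 * x < K + 1 := Nat.lt_floor_add_one _
  have hKX : (K : ℝ) * X ≤ 4 * G / x ^ 2 := by
    have h : (K : ℝ) * X ≤ 4 * x * X := mul_le_mul_of_nonneg_right hKx hXp.le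
    have e1 : 4 * x * X = 4 * G / x ^ 2 := by
      rw [hX]
      field_simp
    linarith
  have hKXG : (K : ℝ) * X ≤ G := by
    refine hKX.trans ?_
    rw [div_le_iff₀ (by positivity)]
    have h4x : (4 : ℝ) ≤ x ^ 2 := by nlinarith
    have := mul_le_mul_of_nonneg_left h4x hGp.le
    linarith
  have hyN : y ≤ N := by
    have : (y : ℝ) ≤ N := by
      rw [← hexpG]
      exact hyX.trans (Real.exp_le_exp.2 hXG)
    exact_mod_cast this
  have hyK : y ^ K ≤ N := by
    have : ((y ^ K : ℕ) : ℝ) ≤ N := by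
      rw [← hexpG, Nat.cast_pow]
      calc (y : ℝ) ^ K ≤ Real.exp X ^ K := pow_le_pow_left₀ hypos.le hyX K
        _ = Real.exp (K * X) := by rw [← Real.exp_nat_mul]
        _ ≤ Real.exp G := Real.exp_le_exp.2 hKXG
    exact_mod_cast this
  have hlogy : Real.log y ≤ X := by
    rw [Real.log_le_iff_le_exp hypos]
    exact hyX
  have hlogy' : X / 2 ≤ Real.log y := by
    have h : Real.exp X / 2 ≤ y := by linarith
    have h2 := Real.log_le_log (by positivity) h
    rw [Real.log_div (Real.exp_pos _).ne' two_ne_zero, Real.log_exp] at h2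
    linarith
  have hll2 : x - 3 * Real.log x - Real.log 2 ≤ Real.log (Real.log y) := by
    have h := Real.log_le_log (by positivity) hlogy'
    have e1 : Real.log (X / 2) = x - 3 * Real.log x - Real.log 2 := by
      rw [Real.log_div hXp.ne' two_ne_zero, hX, Real.log_div hGp.ne' (by positivity),
        Real.log_pow, hxdef]
      norm_num
    linarith
  have hL1 : (1 - ε / 2) * x ≤ LL (PP z y) := by
    have h1 := Pool.Agent.Helper16.UB.W_ge y hy2
    have h2 := W_le_LL z y
    rw [← hWz] at h2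
    linarith
  have hL2 : LL (PP z y) ≤ x + C0 := by
    have h1 := LL_le_W z y
    have h2 := W_mono' hyN
    have h3 := hC0 N (by omega)
    rw [← hG, ← hxdef] at h3
    linarith
  set L := LL (PP z y) with hL
  have hLp : 0 < L := by
    refine lt_of_lt_of_le ?_ hL1
    apply mul_pos _ hxp
    linarith
  have hne : (PP z y).Nonempty := by
    rw [Finset.nonempty_iff_ne_empty]
    intro h
    rw [hL, h] at hLp
    simp [LL] at hLp
  have hk0x : (k0 : ℝ) ≤ (1 - ε) * x := Nat.floor_le (mul_nonneg (by linarith) hxp.le)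
  have hk1' : (k1 : ℝ) + 1 ≤ (1 - ε) * x := by
    rw [div_le_iff₀ (by linarith)] at hxk
    linarith
  have hk0k : k1 + 1 ≤ k0 := by
    rw [hk0]
    apply Nat.le_floor
    push_cast
    exact hk1'
  have hk0p : (0 : ℝ) < k0 := by
    have : 0 < k0 := by omega
    exact_mod_cast this
  have ht : c / x ≤ td r k0 := by
    have h := hk1 k0 (by omega)
    refine le_trans ?_ h
    apply div_le_div_of_nonneg_left hc.le hk0p
    nlinarith
  have hs := split (N := N) (K := K) (k0 := k0) hr (show 1 ≤ z by omega) hne hyK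
  rw [← hL, ← hG] at hs
  have hδ : (k0 : ℝ) ≤ (1 - ε / 2) * L := by
    have h1 : (1 - ε / 2) * ((1 - ε / 2) * x) ≤ (1 - ε / 2) * L :=
      mul_le_mul_of_nonneg_left hL1 (by linarith)
    nlinarith [sq_nonneg ε]
  have hlow := low_tail (δ := ε / 2) hLp.le (by linarith) hδ
  have hD := DD_ge (z := z) (y := y) (K := K) (by omega)
  rw [← hL, ← he] at hD
  have hfin := last_step (m := M r N) (q := 1 - 1 / (z : ℝ)) (D := DD (PP z y) K)
    (E := Real.exp L) (G := G) (t := td r k0)
    (s := ∑ k ∈ range k0, L ^ k / (k.factorial : ℝ)) (Y := Real.log ((y : ℝ) ^ K)) (x := x)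
    (c := c) (C := C) (a := a) (b := b) (e := e) (τ := Real.exp L / 2 ^ K) hq (Real.exp_pos _)
    hGp hxp hc ht hs ?_ ?_ ?_ ?_ ?_ ?_
  · have htp : 0 < td r k0 := lt_of_lt_of_le (div_pos hc hxp) ht
    have h1 : M r N * (1 - 1 / (z : ℝ)) ≤ td r k0 * G * ((1 + ε) * (1 - 1 / (z : ℝ))) :=
      hfin.trans (mul_le_mul_of_nonneg_left f1.le (by positivity))
    have h2 : M r N * (1 - 1 / (z : ℝ)) ≤ (1 + ε) * td r k0 * G * (1 - 1 / (z : ℝ)) := by
      linarith
    exact le_of_mul_le_mul_right h2 hq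
  · have e1 : Real.exp L * (Real.exp L / 2 ^ K) = Real.exp (2 * L) / 2 ^ K := by
      rw [two_mul, Real.exp_add]
      ring
    rw [e1]
    exact hD
  · refine hlow.trans (mul_le_mul_of_nonneg_left (Real.exp_le_exp.2 ?_) (Real.exp_pos _).le)
    rw [ha]
    have := mul_le_mul_of_nonneg_left hL1 (show 0 ≤ (ε / 2) ^ 2 / 2 by positivity)
    linarith
  · have h2K : (2 : ℝ) ^ K = Real.exp (K * Real.log 2) := by
      rw [mul_comm, Real.exp_mul, Real.exp_log two_pos, Real.rpow_natCast]
    rw [h2K, ← Real.exp_sub, Real.exp_le_exp, hC, hb]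
    have h3 : (4 * x - 1) * Real.log 2 ≤ K * Real.log 2 :=
      mul_le_mul_of_nonneg_right (by linarith) hl2.le
    linarith
  · exact sub_pos.2 f2
  · rw [Real.log_pow]
    exact (mul_le_mul_of_nonneg_left hlogy (Nat.cast_nonneg _)).trans hKX
  · rw [Real.exp_neg, hGx, one_div]

end Pool.Agent.Helper26.TD
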