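import Pool.Agent.Helper26.TD.Turan

/-!
# TD-3 (MP_277c78_nt): the blow-up of a family on a set of numbers `p` with weights `1 / p`
-/

set_option autoImplicit false

namespace Pool.Agent.Helper26.TD

open Finset Filter Topology
open Pool.Agent.Helper16.UB (Admissible M)
open Pool.Agent.Helper34.RB (Bdd)

open Classical in
private lemma good_iffB {X : Type} {r k : ℕ} {F : Finset (Finset X)} :
    Good r k F ↔ (∀ e ∈ F, e.card = k) ∧ ∀ T : Finset X, T.card = k + 1 →
      ∀ U : Finset (Finset X), (∀ e ∈ U, e ∈ F ∧ e ⊆ T) → U.card ≤ r := by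
  constructor
  · rintro ⟨h1, h2⟩
    refine ⟨h1, fun T hT U hU => ?_⟩
    exact (card_le_card fun e he => mem_filter.2 (hU e he)).trans (h2 T hT)
  · rintro ⟨h1, h2⟩
    exact ⟨h1, fun T hT => h2 T hT _ fun e he => mem_filter.1 he⟩

/-- a good family living on a finite set `S` -/
private lemma card_le_ex_on {Z : Type} {r k : ℕ} (S : Finset Z) (G : Finset (Finset Z))
    (hS : ∀ g ∈ G, g ⊆ S) (hk : ∀ g ∈ G, g.card = k)
    (hT : ∀ T ⊆ S, T.card = k + 1 → ∀ U : Finset (Finset Z), (∀ e ∈ U, e ∈ G ∧ e ⊆ T) → U.card ≤ r) :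
    G.card ≤ ex r k S.card := by
  classical
  set emb : {z // z ∈ S} ↪ Z := Function.Embedding.subtype _ with hemb
  set F : Finset (Finset {z // z ∈ S}) := univ.filter fun g => g.map emb ∈ G with hF
  have hgood : Good r k F := by
    rw [good_iffB]
    constructor
    · intro g hg
      rw [hF, mem_filter] at hg
      rw [← hk _ hg.2, card_map]
    · intro T hTc U hU
      have h1 : T.map emb ⊆ S := by
        intro z hz
        rw [Finset.mem_map] at hz
        obtain ⟨y, _, rfl⟩ := hz
        exact y.2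
      rw [← card_map ⟨fun g : Finset {z // z ∈ S} => g.map emb, Finset.map_injective emb⟩]
      apply hT (T.map emb) h1 (by rw [card_map, hTc])
      intro e he
      obtain ⟨g, hg, rfl⟩ := Finset.mem_map.1 he
      have hg' := hU g hg
      exact ⟨(mem_filter.1 hg'.1).2, map_subset_map.2 hg'.2⟩
  have h2 := card_le_ex hgood
  rw [Fintype.card_coe] at h2
  refine le_trans ?_ h2
  have h3 : G ⊆ F.image fun g => g.map emb := by
    intro g hg
    rw [mem_image]
    have e : (g.subtype (fun z => z ∈ S)).map emb = g := by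
      rw [hemb, subtype_map]
      exact filter_true_of_mem fun z hz => hS g hg hz
    refine ⟨g.subtype (fun z => z ∈ S), ?_, e⟩
    rw [hF, mem_filter]
    exact ⟨mem_univ _, by rw [e]; exact hg⟩
  exact (card_le_card h3).trans card_image_le

/-- the finite set of points of the blow-up -/
private def pts (P : Finset ℕ) (t : ℕ → ℕ) : Finset (Σ _ : ℕ, ℕ) := P.sigma fun p => range (t p)

open Classical in
/-- the members of the blow-up -/
private noncomputable def blw (P : Finset ℕ) (t : ℕ → ℕ) (F : Finset (Finset ℕ)) :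
    Finset (Finset (Σ _ : ℕ, ℕ)) :=
  (pts P t).powerset.filter fun g => Set.InjOn Sigma.fst (g : Set (Σ _ : ℕ, ℕ)) ∧ g.image Sigma.fst ∈ F

open Classical in
private lemma blw_good {r k : ℕ} (hr : 2 ≤ r) {P : Finset ℕ} (t : ℕ → ℕ) (F : Finset (Finset ℕ))
    (hF : ∀ e ∈ F, e ⊆ P ∧ e.card = k)
    (hT : ∀ T ⊆ P, T.card = k + 1 → ∀ U : Finset (Finset ℕ), (∀ e ∈ U, e ∈ F ∧ e ⊆ T) → U.card ≤ r) :
    (blw P t F).card ≤ ex r k (pts P t).card := by
  have hk : ∀ g ∈ blw P t F, g.card = k := by
    intro g hg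
    have hg' := (mem_filter.1 hg).2
    rw [← (hF _ hg'.2).2, card_image_of_injOn hg'.1]
  apply card_le_ex_on
  · intro g hg
    exact mem_powerset.1 (mem_filter.1 hg).1
  · exact hk
  · intro T hTS hTc U hU
    by_cases hinj : Set.InjOn Sigma.fst (T : Set (Σ _ : ℕ, ℕ))
    · have h1 : T.image Sigma.fst ⊆ P := by
        intro p hp
        obtain ⟨z, hz, rfl⟩ := mem_image.1 hp
        exact (mem_sigma.1 (hTS hz)).1
      have hinjU : Set.InjOn (fun g : Finset (Σ _ : ℕ, ℕ) => g.image Sigma.fst)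
          (U : Set (Finset (Σ _ : ℕ, ℕ))) := by
        intro g hg g' hg' h
        have a := (hU g (mem_coe.1 hg)).2
        have a' := (hU g' (mem_coe.1 hg')).2
        simp only at h
        ext z
        constructor
        · intro hz
          have h2 : z.1 ∈ g'.image Sigma.fst := by
            rw [← h]
            exact mem_image_of_mem _ hz
          obtain ⟨w, hw, e⟩ := mem_image.1 h2
          have h3 : w = z := hinj (mem_coe.2 (a' hw)) (mem_coe.2 (a hz)) e
          rw [← h3]
          exact hw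
        · intro hz
          have h2 : z.1 ∈ g.image Sigma.fst := by
            rw [h]
            exact mem_image_of_mem _ hz
          obtain ⟨w, hw, e⟩ := mem_image.1 h2
          have h3 : w = z := hinj (mem_coe.2 (a hw)) (mem_coe.2 (a' hz)) e
          rw [← h3]
          exact hw
      rw [← card_image_of_injOn hinjU]
      apply hT (T.image Sigma.fst) h1 (by rw [card_image_of_injOn hinj, hTc])
      intro e he
      obtain ⟨g, hg, rfl⟩ := mem_image.1 he
      exact ⟨(mem_filter.1 (hU g hg).1).2.2, image_subset_image (hU g hg).2⟩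
    · simp only [Set.InjOn, not_forall] at hinj
      obtain ⟨u, hu, v, hv, huv, hne⟩ := hinj
      have h1 : U ⊆ {T.erase u, T.erase v} := by
        intro g hg
        obtain ⟨hg1, hg2⟩ := hU g hg
        have hgk := hk g hg1
        have hgi := (mem_filter.1 hg1).2.1
        have key : ∀ w, w ∈ T → w ∉ g → g = T.erase w := by
          intro w hw hwg
          apply eq_of_subset_of_card_le
          · intro z hz
            rw [mem_erase]
            refine ⟨?_, hg2 hz⟩
            rintro rfl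
            exact hwg hz
          · rw [card_erase_of_mem hw, hTc, hgk]
            simp
        rw [mem_insert, mem_singleton]
        by_cases hug : u ∈ g
        · right
          apply key v (mem_coe.1 hv)
          intro hvg
          exact hne (hgi (mem_coe.2 hug) (mem_coe.2 hvg) huv)
        · left
          exact key u (mem_coe.1 hu) hug
      exact (card_le_card h1).trans (card_le_two.trans hr)

open Classical in
private lemma blw_card {k : ℕ} {P : Finset ℕ} (t : ℕ → ℕ) (F : Finset (Finset ℕ))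
    (hF : ∀ e ∈ F, e ⊆ P ∧ e.card = k) :
    ∑ e ∈ F, ∏ p ∈ e, t p ≤ (blw P t F).card := by
  have h1 : ∑ e ∈ F, ∏ p ∈ e, t p =
      (F.sigma fun e => e.pi fun p => range (t p)).card := by
    rw [card_sigma]
    apply sum_congr rfl
    intro e _
    rw [card_pi]
    simp
  rw [h1]
  have himg : ∀ (e : Finset ℕ) (f : ∀ a ∈ e, ℕ),
      (e.attach.image fun p => (⟨p.1, f p.1 p.2⟩ : Σ _ : ℕ, ℕ)).image Sigma.fst = e := by
    intro e f
    rw [image_image]
    ext p
    simp
  refine card_le_card_of_injOn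
    (fun x => x.1.attach.image fun p => (⟨p.1, x.2 p.1 p.2⟩ : Σ _ : ℕ, ℕ)) ?_ ?_
  · rintro ⟨e, f⟩ hx
    obtain ⟨he, hf⟩ := mem_sigma.1 (mem_coe.1 hx)
    simp only at he hf
    rw [mem_coe]
    unfold blw
    rw [mem_filter, mem_powerset]
    refine ⟨?_, ?_, ?_⟩
    · intro z hz
      obtain ⟨p, _, rfl⟩ := mem_image.1 hz
      unfold pts
      rw [mem_sigma]
      exact ⟨(hF e he).1 p.2, (mem_pi.1 hf) p.1 p.2⟩
    · intro z hz w hw h
      obtain ⟨p, _, rfl⟩ := mem_image.1 (mem_coe.1 hz)
      obtain ⟨q, _, rfl⟩ := mem_image.1 (mem_coe.1 hw)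
      have : p = q := Subtype.ext h
      rw [this]
    · simp only
      rw [himg e f]
      exact he
  · rintro ⟨e, f⟩ hx ⟨e', f'⟩ hx' h
    simp only at h
    have he : e = e' := by
      rw [← himg e f, ← himg e' f', h]
    subst he
    have hff : f = f' := by
      funext p hp
      have h2 : (⟨p, f p hp⟩ : Σ _ : ℕ, ℕ) ∈ e.attach.image fun q => (⟨q.1, f q.1 q.2⟩ : Σ _ : ℕ, ℕ) :=
        mem_image.2 ⟨⟨p, hp⟩, mem_attach _ _, rfl⟩
      rw [h] at h2
      obtain ⟨q, _, hq⟩ := mem_image.1 h2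
      have h3 : q.1 = p := congrArg Sigma.fst hq
      obtain ⟨q, hq'⟩ := q
      simp only at h3
      subst h3
      have h4 := congrArg Sigma.snd hq
      exact h4.symm
    rw [hff]

open Classical in
theorem blow {r k : ℕ} (hr : 2 ≤ r) {P : Finset ℕ} (hP : ∀ p ∈ P, 0 < p) (hne : P.Nonempty)
    (F : Finset (Finset ℕ)) (hF : ∀ e ∈ F, e ⊆ P ∧ e.card = k)
    (hT : ∀ T ⊆ P, T.card = k + 1 → (F.filter fun e => e ⊆ T).card ≤ r) :
    ∑ e ∈ F, ∏ p ∈ e, 1 / (p : ℝ) ≤ td r k * LL P ^ k / (k.factorial : ℝ) := by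
  set D : ℕ := ∏ p ∈ P, p with hD
  have hDpos : 0 < D := prod_pos hP
  have hdvd : ∀ p ∈ P, p ∣ D := fun p hp => dvd_prod_of_mem _ hp
  set c : ℕ := ∑ p ∈ P, D / p with hc
  have hcpos : 0 < c := by
    obtain ⟨p, hp⟩ := hne
    refine sum_pos' (fun _ _ => Nat.zero_le _) ⟨p, hp, ?_⟩
    exact Nat.div_pos (Nat.le_of_dvd hDpos (hdvd p hp)) (hP p hp)
  have hcL : (c : ℝ) = D * LL P := by
    rw [hc]
    unfold LL
    rw [mul_sum]
    push_cast
    apply sum_congr rfl
    intro p hp
    rw [Nat.cast_div (hdvd p hp) (by exact_mod_cast (hP p hp).ne')]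
    ring
  have hDR : (0 : ℝ) < D := by exact_mod_cast hDpos
  -- the inequality for a given `j`
  have hj : ∀ j : ℕ, k ≤ j → 1 ≤ j → ∑ e ∈ F, ∏ p ∈ e, 1 / (p : ℝ) ≤
      ((ex r k (j * c) : ℝ) / ((j * c).choose k : ℝ)) * (LL P ^ k / (k.factorial : ℝ)) := by
    intro j hkj hj1
    have hjR : (0 : ℝ) < j := by exact_mod_cast hj1
    have hpc : (pts P fun p => j * (D / p)).card = j * c := by
      unfold pts
      rw [card_sigma, hc, mul_sum]
      simp
    have h1 : ∑ e ∈ F, ∏ p ∈ e, j * (D / p) ≤ ex r k (j * c) := by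
      rw [← hpc]
      refine (blw_card (fun p => j * (D / p)) F hF).trans (blw_good hr _ F hF ?_)
      intro T hTP hTc U hU
      exact (card_le_card fun e he => mem_filter.2 (hU e he)).trans (hT T hTP hTc)
    have h2 : ((j : ℝ) * D) ^ k * ∑ e ∈ F, ∏ p ∈ e, 1 / (p : ℝ) ≤ (ex r k (j * c) : ℝ) := by
      have h3 : ((∑ e ∈ F, ∏ p ∈ e, j * (D / p) : ℕ) : ℝ) ≤ (ex r k (j * c) : ℝ) := by
        exact_mod_cast h1
      refine le_trans (le_of_eq ?_) h3
      rw [mul_sum]
      push_cast
      apply sum_congr rfl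
      intro e he
      obtain ⟨heP, hek⟩ := hF e he
      rw [← hek, ← prod_const, ← prod_mul_distrib]
      apply prod_congr rfl
      intro p hp
      rw [Nat.cast_div (hdvd p (heP hp)) (by exact_mod_cast (hP p (heP hp)).ne')]
      ring
    have hn : k ≤ j * c := hkj.trans (Nat.le_mul_of_pos_right j hcpos)
    have hch : (0 : ℝ) < ((j * c).choose k : ℝ) := by exact_mod_cast Nat.choose_pos hn
    have hpow : (0 : ℝ) < ((j : ℝ) * D) ^ k := by positivity
    have hle : ((j * c).choose k : ℝ) ≤ ((j : ℝ) * D) ^ k * (LL P ^ k / (k.factorial : ℝ)) := by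
      have h4 := Nat.choose_le_pow_div (α := ℝ) k (j * c)
      refine h4.trans (le_of_eq ?_)
      push_cast
      rw [hcL]
      ring
    have hex : (0 : ℝ) ≤ (ex r k (j * c) : ℝ) / ((j * c).choose k : ℝ) := by positivity
    have h5 : (ex r k (j * c) : ℝ) ≤ ((ex r k (j * c) : ℝ) / ((j * c).choose k : ℝ)) *
        (((j : ℝ) * D) ^ k * (LL P ^ k / (k.factorial : ℝ))) := by
      calc (ex r k (j * c) : ℝ) = ((ex r k (j * c) : ℝ) / ((j * c).choose k : ℝ)) *
            ((j * c).choose k : ℝ) := by field_simp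
        _ ≤ _ := mul_le_mul_of_nonneg_left hle hex
    have h6 := h2.trans h5
    have h7 : ((j : ℝ) * D) ^ k * ∑ e ∈ F, ∏ p ∈ e, 1 / (p : ℝ) ≤ ((j : ℝ) * D) ^ k *
        (((ex r k (j * c) : ℝ) / ((j * c).choose k : ℝ)) * (LL P ^ k / (k.factorial : ℝ))) := by
      refine h6.trans (le_of_eq ?_)
      ring
    exact le_of_mul_le_mul_left h7 hpow
  -- the limit
  have hlim : Tendsto (fun j : ℕ => ((ex r k (j * c) : ℝ) / ((j * c).choose k : ℝ)) *
      (LL P ^ k / (k.factorial : ℝ))) atTop (𝓝 (td r k * (LL P ^ k / (k.factorial : ℝ)))) := by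
    apply Tendsto.mul_const
    have h8 : Tendsto (fun j : ℕ => j * c) atTop atTop :=
      tendsto_atTop_mono (fun j => Nat.le_mul_of_pos_right j hcpos) tendsto_id
    exact (tendsto_td r k).comp h8
  rw [mul_div_assoc]
  refine ge_of_tendsto hlim ?_
  filter_upwards [eventually_ge_atTop (max k 1)] with j hjm
  exact hj j ((le_max_left _ _).trans hjm) ((le_max_right _ _).trans hjm)

end Pool.Agent.Helper26.TD
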