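import Pool.Agent.Helper26.TD.Blow

/-!
# TD-7 (MP_277c78_nt)
-/

set_option autoImplicit false

namespace Pool.Agent.Helper26.TD

open Finset Filter Topology
open Pool.Agent.Helper16.UB (Admissible M R)
open Pool.Agent.Helper34.RB (Bdd)

lemma R_finite (A : Finset ℕ) {m : ℕ} (hm : 0 < m) :
    Set.Finite {x : ℕ × ℕ | x.1.Prime ∧ x.2 ∈ A ∧ m = x.1 * x.2} := by
  refine Set.Finite.subset (Finset.finite_toSet (Finset.Icc 1 m ×ˢ A)) ?_
  rintro ⟨p, a⟩ ⟨h1, h2, h3⟩
  simp only at h1 h2 h3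
  rw [mem_coe, mem_product, mem_Icc]
  refine ⟨⟨h1.pos, Nat.le_of_dvd hm ⟨a, h3⟩⟩, h2⟩

open Classical in
lemma core_T {r N : ℕ} {A : Finset ℕ} (hA : Admissible r N A) {P : Finset ℕ}
    (hP : ∀ p ∈ P, p.Prime) {c : ℕ} (hc : 0 < c) (k : ℕ) {T : Finset ℕ} (hT : T ⊆ P)
    (hTk : T.card = k + 1) :
    (((P.powersetCard k).filter fun s => c * ∏ p ∈ s, p ∈ A).filter fun e => e ⊆ T).card ≤ r := by
  have hm : 0 < c * ∏ p ∈ T, p :=
    Nat.mul_pos hc (Finset.prod_pos fun p hp => (hP p (hT hp)).pos)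
  refine le_trans ?_ (hA.2 _ hm)
  unfold Pool.Agent.Helper16.UB.R
  rw [← Set.ncard_coe_finset]
  refine Set.ncard_le_ncard_of_injOn (fun e : Finset ℕ => (∏ p ∈ T \ e, p, c * ∏ p ∈ e, p)) ?_ ?_
    (R_finite A hm)
  · intro e he
    rw [mem_coe, mem_filter, mem_filter, mem_powersetCard] at he
    obtain ⟨⟨⟨_, hek⟩, heA⟩, heT⟩ := he
    have hcard : (T \ e).card = 1 := by
      rw [card_sdiff_of_subset heT]
      omega
    obtain ⟨q, hq⟩ := card_eq_one.1 hcard
    refine ⟨?_, heA, ?_⟩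
    · simp only [hq, prod_singleton]
      have : q ∈ T \ e := by rw [hq]; exact mem_singleton_self q
      exact hP q (hT (mem_sdiff.1 this).1)
    · simp only
      rw [← prod_sdiff heT]
      ring
  · intro e he e' he' h
    rw [mem_coe, mem_filter, mem_filter, mem_powersetCard] at he he'
    obtain ⟨⟨⟨_, hek⟩, heA⟩, heT⟩ := he
    obtain ⟨⟨⟨_, hek'⟩, heA'⟩, heT'⟩ := he'
    have hcard : (T \ e).card = 1 := by
      rw [card_sdiff_of_subset heT]
      omega
    have hcard' : (T \ e').card = 1 := by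
      rw [card_sdiff_of_subset heT']
      omega
    obtain ⟨q, hq⟩ := card_eq_one.1 hcard
    obtain ⟨q', hq'⟩ := card_eq_one.1 hcard'
    have h1 := congrArg Prod.fst h
    simp only [hq, hq', prod_singleton] at h1
    have h2 : T \ e = T \ e' := by rw [hq, hq', h1]
    rw [← Finset.sdiff_sdiff_eq_self heT, h2, Finset.sdiff_sdiff_eq_self heT']

open Classical in
theorem core {r N : ℕ} (hr : 2 ≤ r) {A : Finset ℕ} (hA : Admissible r N A) {P : Finset ℕ}
    (hP : ∀ p ∈ P, p.Prime) (hne : P.Nonempty) {c : ℕ} (hc : 0 < c) :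
    ∑ s ∈ P.powerset.filter (fun s => c * ∏ p ∈ s, p ∈ A), ∏ p ∈ s, 1 / (p : ℝ) ≤
      ∑ k ∈ range (P.card + 1), td r k * LL P ^ k / (k.factorial : ℝ) := by
  have h1 : ∑ s ∈ P.powerset.filter (fun s => c * ∏ p ∈ s, p ∈ A), ∏ p ∈ s, 1 / (p : ℝ) =
      ∑ k ∈ range (P.card + 1),
        ∑ s ∈ (P.powersetCard k).filter (fun s => c * ∏ p ∈ s, p ∈ A), ∏ p ∈ s, 1 / (p : ℝ) := by
    rw [sum_filter, sum_powerset]
    refine sum_congr rfl fun k _ => ?_
    rw [sum_filter]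
  rw [h1]
  refine sum_le_sum fun k _ => ?_
  refine blow hr (fun p hp => (hP p hp).pos) hne _ ?_ ?_
  · intro e he
    rw [mem_filter, mem_powersetCard] at he
    exact he.1
  · intro T hT hTk
    exact core_T hA hP hc k hT hTk

end Pool.Agent.Helper26.TD
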