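import Pool.Agent.Helper81.RV.Final

/-!
# Project TD (MP_277c78_nt): Turán numbers and densities
-/

set_option autoImplicit false

namespace Pool.Agent.Helper26.TD

open Finset Filter

open Classical in
/-- `F` is a family of `k`-sets such that every `(k + 1)`-set contains at most `r` of them. -/
def Good {X : Type} (r k : ℕ) (F : Finset (Finset X)) : Prop :=
  (∀ e ∈ F, e.card = k) ∧ ∀ T : Finset X, T.card = k + 1 → (F.filter fun e => e ⊆ T).card ≤ r

/-- the largest number of `k`-subsets of an `n`-set such that every `(k + 1)`-subset contains at most `r` of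
them (the Turán number of the `k`-graph with `r + 1` edges on `k + 1` vertices, if `r ≤ k`) -/
noncomputable def ex (r k n : ℕ) : ℕ :=
  sSup {m | ∃ F : Finset (Finset (Fin n)), Good r k F ∧ F.card = m}

/-- the Turán density -/
noncomputable def td (r k : ℕ) : ℝ :=
  limUnder atTop fun n : ℕ => (ex r k n : ℝ) / (n.choose k : ℝ)

/-- the primes in `(z, y]` -/
def PP (z y : ℕ) : Finset ℕ := (Icc 1 y).filter fun p => p.Prime ∧ z < p

/-- the sum of their reciprocals -/
noncomputable def LL (P : Finset ℕ) : ℝ := ∑ p ∈ P, 1 / (p : ℝ)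

/-- the sum of the reciprocals of the squarefree products of at most `K` elements of `P` -/
noncomputable def DD (P : Finset ℕ) (K : ℕ) : ℝ :=
  ∑ s ∈ P.powerset.filter (fun s => s.card ≤ K), ∏ p ∈ s, 1 / (p : ℝ)

end Pool.Agent.Helper26.TD
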