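import Pool.Agent.Helper26.TD.Defs

/-!
# TD-11 (MP_277c78_nt): put the proofs into this file (keep the statements and the namespace)
-/

set_option autoImplicit false

namespace Pool.Agent.Helper26.TD

open Finset Filter Topology
open Pool.Agent.Helper16.UB (Admissible M)
open Pool.Agent.Helper34.RB (Bdd)

private theorem floor_lim {t : ℕ → ℝ} {c : ℝ} (hk : Tendsto (fun k : ℕ => (k : ℝ) * t k) atTop (𝓝 c)) {κ : ℝ}
    (hκ : 0 < κ) : Tendsto (fun x : ℝ => t ⌊κ * x⌋₊ * x) atTop (𝓝 (c / κ)) := by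
  have h1 : Tendsto (fun x : ℝ => ((⌊κ * x⌋₊ : ℕ) : ℝ) / x) atTop (𝓝 κ) := tendsto_nat_floor_mul_div_atTop hκ.le
  have h2 : Tendsto (fun x : ℝ => ⌊κ * x⌋₊) atTop atTop := tendsto_nat_floor_atTop.comp (tendsto_id.const_mul_atTop hκ)
  have h3 := (hk.comp h2).div h1 hκ.ne'
  refine h3.congr' ?_
  filter_upwards [h2.eventually_gt_atTop 0, eventually_gt_atTop 0] with x hx hx0
  have hx' : ((⌊κ * x⌋₊ : ℕ) : ℝ) ≠ 0 := by
    have : 0 < ((⌊κ * x⌋₊ : ℕ) : ℝ) := by exact_mod_cast hx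
    exact this.ne'
  show ((⌊κ * x⌋₊ : ℕ) : ℝ) * t ⌊κ * x⌋₊ / (((⌊κ * x⌋₊ : ℕ) : ℝ) / x) = t ⌊κ * x⌋₊ * x
  field_simp

private theorem ceil_lim {t : ℕ → ℝ} {c : ℝ} (hk : Tendsto (fun k : ℕ => (k : ℝ) * t k) atTop (𝓝 c)) {κ : ℝ}
    (hκ : 0 < κ) : Tendsto (fun x : ℝ => t ⌈κ * x⌉₊ * x) atTop (𝓝 (c / κ)) := by
  have h1 : Tendsto (fun x : ℝ => ((⌈κ * x⌉₊ : ℕ) : ℝ) / x) atTop (𝓝 κ) := tendsto_nat_ceil_mul_div_atTop hκ.le
  have h2 : Tendsto (fun x : ℝ => ⌈κ * x⌉₊) atTop atTop := tendsto_nat_ceil_atTop.comp (tendsto_id.const_mul_atTop hκ)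
  have h3 := (hk.comp h2).div h1 hκ.ne'
  refine h3.congr' ?_
  filter_upwards [h2.eventually_gt_atTop 0, eventually_gt_atTop 0] with x hx hx0
  have hx' : ((⌈κ * x⌉₊ : ℕ) : ℝ) ≠ 0 := by
    have : 0 < ((⌈κ * x⌉₊ : ℕ) : ℝ) := by exact_mod_cast hx
    exact this.ne'
  show ((⌈κ * x⌉₊ : ℕ) : ℝ) * t ⌈κ * x⌉₊ / (((⌈κ * x⌉₊ : ℕ) : ℝ) / x) = t ⌈κ * x⌉₊ * x
  field_simp

private noncomputable def NN (x : ℝ) : ℕ := ⌊Real.exp (Real.exp x)⌋₊

private theorem NN_tendsto : Tendsto NN atTop atTop :=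
  tendsto_nat_floor_atTop.comp (Real.tendsto_exp_atTop.comp Real.tendsto_exp_atTop)

private theorem NN_bounds {x : ℝ} (hx : 1 ≤ x) :
    x - 1 ≤ Real.log (Real.log (NN x)) ∧ Real.log (Real.log (NN x)) ≤ x := by
  have he : 2 < Real.exp 1 := by
    have := Real.exp_one_gt_d9
    linarith
  have hex : 2 < Real.exp x := he.trans_le (Real.exp_le_exp.mpr hx)
  have hy : 2 ≤ Real.exp (Real.exp x) := by
    have h1 := Real.add_one_le_exp (Real.exp x)
    linarith
  have hN1 : (NN x : ℝ) ≤ Real.exp (Real.exp x) := Nat.floor_le (Real.exp_pos _).le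
  have hN2 : Real.exp (Real.exp x) / 2 ≤ (NN x : ℝ) := by
    have h1 : Real.exp (Real.exp x) < (NN x : ℝ) + 1 := Nat.lt_floor_add_one _
    linarith
  have hN0 : 0 < (NN x : ℝ) := by linarith
  have hlog1 : Real.log (NN x) ≤ Real.exp x := by
    have := Real.log_le_log hN0 hN1
    rwa [Real.log_exp] at this
  have hlog2 : Real.exp (x - 1) ≤ Real.log (NN x) := by
    have h1 := Real.log_le_log (by positivity) hN2
    rw [Real.log_div (Real.exp_pos _).ne' (by norm_num), Real.log_exp] at h1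
    have h2 : Real.exp x = Real.exp (x - 1) * Real.exp 1 := by
      rw [← Real.exp_add]; congr 1; ring
    have h3 : 1 ≤ Real.exp (x - 1) := Real.one_le_exp (by linarith)
    have h4 := Real.log_two_lt_d9
    nlinarith
  have hlog0 : 0 < Real.log (NN x) := (Real.exp_pos _).trans_le hlog2
  constructor
  · have := Real.log_le_log (Real.exp_pos _) hlog2
    rwa [Real.log_exp] at this
  · have := Real.log_le_log hlog0 hlog1
    rwa [Real.log_exp] at this

private theorem ratio_lim : Tendsto (fun x : ℝ => x / Real.log (Real.log (NN x))) atTop (𝓝 1) := by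
  have h1 : Tendsto (fun x : ℝ => Real.log (Real.log (NN x)) / x) atTop (𝓝 1) := by
    have h2 : Tendsto (fun x : ℝ => 1 - x⁻¹) atTop (𝓝 1) := by
      have := (tendsto_const_nhds (x := (1 : ℝ))).sub (tendsto_inv_atTop_zero (𝕜 := ℝ))
      simpa using this
    refine tendsto_of_tendsto_of_tendsto_of_le_of_le' h2 tendsto_const_nhds ?_ ?_
    · filter_upwards [eventually_ge_atTop 1] with x hx
      have hx0 : 0 < x := by linarith
      rw [le_div_iff₀ hx0]
      have : (1 - x⁻¹) * x = x - 1 := by field_simp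
      rw [this]
      exact (NN_bounds hx).1
    · filter_upwards [eventually_ge_atTop 1] with x hx
      have hx0 : 0 < x := by linarith
      rw [div_le_one hx0]
      exact (NN_bounds hx).2
  have h3 := h1.inv₀ (by norm_num)
  rw [inv_one] at h3
  refine h3.congr fun x => ?_
  rw [inv_div]

private theorem seq_lim {f : ℕ → ℝ} {c : ℝ} (hf : Tendsto f atTop (𝓝 c)) {α β : ℝ} (hα : 0 < α) :
    Tendsto (fun k : ℕ => f (NN (α * k + β)) * ((k : ℝ) / Real.log (Real.log (NN (α * k + β))))) atTop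
      (𝓝 (c * α⁻¹)) := by
  have hx : Tendsto (fun k : ℕ => α * (k : ℝ) + β) atTop atTop :=
    tendsto_atTop_add_const_right _ _ (tendsto_natCast_atTop_atTop.const_mul_atTop hα)
  have h1 : Tendsto (fun k : ℕ => f (NN (α * k + β))) atTop (𝓝 c) := hf.comp (NN_tendsto.comp hx)
  have h2 : Tendsto (fun k : ℕ => (α * (k : ℝ) + β) / Real.log (Real.log (NN (α * k + β)))) atTop (𝓝 1) :=
    ratio_lim.comp hx
  have h3 : Tendsto (fun k : ℕ => (k : ℝ) / (α * (k : ℝ) + β)) atTop (𝓝 α⁻¹) := by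
    have h4 : Tendsto (fun k : ℕ => (α * (k : ℝ) + β) / (k : ℝ)) atTop (𝓝 α) := by
      have h5 : Tendsto (fun k : ℕ => α + β * (k : ℝ)⁻¹) atTop (𝓝 (α + β * 0)) :=
        tendsto_const_nhds.add (tendsto_const_nhds.mul (tendsto_inv_atTop_zero.comp tendsto_natCast_atTop_atTop))
      rw [mul_zero, add_zero] at h5
      refine h5.congr' ?_
      filter_upwards [eventually_gt_atTop 0] with k hk
      have : (k : ℝ) ≠ 0 := by
        have : 0 < (k : ℝ) := by exact_mod_cast hk
        exact this.ne'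
      field_simp
    refine (h4.inv₀ hα.ne').congr fun k => ?_
    rw [inv_div]
  have h6 : Tendsto (fun k : ℕ => (k : ℝ) / Real.log (Real.log (NN (α * k + β)))) atTop (𝓝 α⁻¹) := by
    have h7 := h3.mul h2
    rw [mul_one] at h7
    refine h7.congr' ?_
    filter_upwards [hx.eventually_gt_atTop 0] with k hk
    rw [div_mul_div_comm, mul_comm (α * (k : ℝ) + β) (Real.log _), mul_div_mul_right _ _ hk.ne']
  exact h1.mul h6

private theorem choose_up {c c' : ℝ} (h : c < c') : ∃ ε : ℝ, 0 < ε ∧ ε < 1 ∧ (1 + ε) / (1 - ε) * c < c' := by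
  have h1 : Tendsto (fun ε : ℝ => (1 + ε) / (1 - ε) * c) (𝓝[>] 0) (𝓝 ((1 + 0) / (1 - 0) * c)) := by
    apply Tendsto.mono_left _ nhdsWithin_le_nhds
    apply ContinuousAt.tendsto (f := fun ε : ℝ => (1 + ε) / (1 - ε) * c) (x := 0)
    apply ContinuousAt.mul _ continuousAt_const
    exact ContinuousAt.div (by fun_prop) (by fun_prop) (by norm_num)
  have h2 : ((1 : ℝ) + 0) / (1 - 0) * c < c' := by norm_num; exact h
  obtain ⟨ε, hε, hε2⟩ := ((h1.eventually (gt_mem_nhds h2)).and (Ioo_mem_nhdsGT (show (0 : ℝ) < 1 by norm_num))).exists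
  exact ⟨ε, hε2.1, hε2.2, hε⟩

private theorem choose_low {c c' : ℝ} (h : c' < c) : ∃ ε : ℝ, 0 < ε ∧ ε < 1 ∧ c' < (1 - ε) / (1 + ε) * c := by
  have h1 : Tendsto (fun ε : ℝ => (1 - ε) / (1 + ε) * c) (𝓝[>] 0) (𝓝 ((1 - 0) / (1 + 0) * c)) := by
    apply Tendsto.mono_left _ nhdsWithin_le_nhds
    apply ContinuousAt.tendsto (f := fun ε : ℝ => (1 - ε) / (1 + ε) * c) (x := 0)
    apply ContinuousAt.mul _ continuousAt_const
    exact ContinuousAt.div (by fun_prop) (by fun_prop) (by norm_num)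
  have h2 : c' < ((1 : ℝ) - 0) / (1 + 0) * c := by norm_num; exact h
  obtain ⟨ε, hε, hε2⟩ := ((h1.eventually (lt_mem_nhds h2)).and (Ioo_mem_nhdsGT (show (0 : ℝ) < 1 by norm_num))).exists
  exact ⟨ε, hε2.1, hε2.2, hε⟩

theorem iff_lim {m : ℕ → ℝ} {t : ℕ → ℝ} (ht0 : ∀ k, 0 ≤ t k) (hta : Antitone t)
    (hlow : ∀ ε : ℝ, 0 < ε → ε < 1 →
      ∀ᶠ N : ℕ in atTop, (1 - ε) * t ⌈(1 + ε) * Real.log (Real.log N)⌉₊ * Real.log N ≤ m N)
    (hup : ∀ ε : ℝ, 0 < ε → ε < 1 →
      ∀ᶠ N : ℕ in atTop, m N ≤ (1 + ε) * t ⌊(1 - ε) * Real.log (Real.log N)⌋₊ * Real.log N)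
    (c : ℝ) :
    Tendsto (fun N : ℕ => m N * Real.log (Real.log N) / Real.log N) atTop (𝓝 c) ↔
      Tendsto (fun k : ℕ => (k : ℝ) * t k) atTop (𝓝 c) := by
  have _ := ht0
  have hlg : Tendsto (fun N : ℕ => Real.log N) atTop atTop := Real.tendsto_log_atTop.comp tendsto_natCast_atTop_atTop
  have hll : Tendsto (fun N : ℕ => Real.log (Real.log N)) atTop atTop := Real.tendsto_log_atTop.comp hlg
  constructor
  · intro hf
    rw [tendsto_order]
    constructor
    · intro c' hc'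
      obtain ⟨ε, hε0, hε1, hε⟩ := choose_low hc'
      have h1ε : 0 < 1 - ε := by linarith
      have hs := (seq_lim hf (α := (1 - ε)⁻¹) (β := 1) (by positivity)).const_mul ((1 + ε)⁻¹)
      have hval : (1 + ε)⁻¹ * (c * (1 - ε)⁻¹⁻¹) = (1 - ε) / (1 + ε) * c := by
        rw [inv_inv]; field_simp
      rw [hval] at hs
      have hx : Tendsto (fun k : ℕ => (1 - ε)⁻¹ * (k : ℝ) + 1) atTop atTop :=
        tendsto_atTop_add_const_right _ _ (tendsto_natCast_atTop_atTop.const_mul_atTop (by positivity))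
      have hN := NN_tendsto.comp hx
      filter_upwards [hs.eventually (lt_mem_nhds hε), hN.eventually (hup ε hε0 hε1),
        hN.eventually (hlg.eventually_gt_atTop 0), hN.eventually (hll.eventually_gt_atTop 0),
        hx.eventually_ge_atTop 1] with k h1 h2 h3 h4 h5
      simp only [Function.comp] at h2 h3 h4
      set N := NN ((1 - ε)⁻¹ * (k : ℝ) + 1) with hNdef
      have hb := NN_bounds h5
      rw [← hNdef] at hb
      have h6 : k ≤ ⌊(1 - ε) * Real.log (Real.log N)⌋₊ := by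
        apply Nat.le_floor
        have h7 : (1 - ε)⁻¹ * (k : ℝ) ≤ Real.log (Real.log N) := by linarith [hb.1]
        calc (k : ℝ) = (1 - ε) * ((1 - ε)⁻¹ * (k : ℝ)) := by field_simp
          _ ≤ _ := mul_le_mul_of_nonneg_left h7 h1ε.le
      have h8 := hta h6
      have h9 : m N ≤ (1 + ε) * t k * Real.log N := by
        refine h2.trans ?_
        apply mul_le_mul_of_nonneg_right _ h3.le
        exact mul_le_mul_of_nonneg_left h8 (by linarith)
      refine h1.trans_le ?_
      have h10 : (1 + ε)⁻¹ * (m N * Real.log (Real.log N) / Real.log N * ((k : ℝ) / Real.log (Real.log N))) =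
          (k : ℝ) * (m N / ((1 + ε) * Real.log N)) := by
        field_simp
      rw [h10]
      apply mul_le_mul_of_nonneg_left _ (Nat.cast_nonneg k)
      rw [div_le_iff₀ (by positivity)]
      linarith
    · intro c' hc'
      obtain ⟨ε, hε0, hε1, hε⟩ := choose_up hc'
      have h1ε : 0 < 1 - ε := by linarith
      have hs := (seq_lim hf (α := (1 + ε)⁻¹) (β := 0) (by positivity)).const_mul ((1 - ε)⁻¹)
      have hval : (1 - ε)⁻¹ * (c * (1 + ε)⁻¹⁻¹) = (1 + ε) / (1 - ε) * c := by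
        rw [inv_inv]; field_simp
      rw [hval] at hs
      have hx : Tendsto (fun k : ℕ => (1 + ε)⁻¹ * (k : ℝ) + 0) atTop atTop :=
        tendsto_atTop_add_const_right _ _ (tendsto_natCast_atTop_atTop.const_mul_atTop (by positivity))
      have hN := NN_tendsto.comp hx
      filter_upwards [hs.eventually (gt_mem_nhds hε), hN.eventually (hlow ε hε0 hε1),
        hN.eventually (hlg.eventually_gt_atTop 0), hN.eventually (hll.eventually_gt_atTop 0),
        hx.eventually_ge_atTop 1] with k h1 h2 h3 h4 h5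
      simp only [Function.comp] at h2 h3 h4
      set N := NN ((1 + ε)⁻¹ * (k : ℝ) + 0) with hNdef
      have hb := NN_bounds h5
      rw [← hNdef] at hb
      have h6 : ⌈(1 + ε) * Real.log (Real.log N)⌉₊ ≤ k := by
        rw [Nat.ceil_le]
        have h7 : Real.log (Real.log N) ≤ (1 + ε)⁻¹ * (k : ℝ) := by linarith [hb.2]
        calc (1 + ε) * Real.log (Real.log N) ≤ (1 + ε) * ((1 + ε)⁻¹ * (k : ℝ)) :=
              mul_le_mul_of_nonneg_left h7 (by linarith)
          _ = k := by field_simp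
      have h8 := hta h6
      have h9 : (1 - ε) * t k * Real.log N ≤ m N := by
        refine le_trans ?_ h2
        apply mul_le_mul_of_nonneg_right _ h3.le
        exact mul_le_mul_of_nonneg_left h8 h1ε.le
      refine lt_of_le_of_lt ?_ h1
      have h10 : (1 - ε)⁻¹ * (m N * Real.log (Real.log N) / Real.log N * ((k : ℝ) / Real.log (Real.log N))) =
          (k : ℝ) * (m N / ((1 - ε) * Real.log N)) := by
        field_simp
      rw [h10]
      apply mul_le_mul_of_nonneg_left _ (Nat.cast_nonneg k)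
      rw [le_div_iff₀ (by positivity)]
      linarith
  · intro hk
    rw [tendsto_order]
    constructor
    · intro c' hc'
      obtain ⟨ε, hε0, hε1, hε⟩ := choose_low hc'
      have h1 := ((ceil_lim hk (κ := 1 + ε) (by linarith)).comp hll).const_mul (1 - ε)
      have hval : (1 - ε) * (c / (1 + ε)) = (1 - ε) / (1 + ε) * c := by ring
      rw [hval] at h1
      filter_upwards [h1.eventually (lt_mem_nhds hε), hlow ε hε0 hε1, hlg.eventually_gt_atTop 0,
        hll.eventually_gt_atTop 0] with N h2 h3 h4 h5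
      refine h2.trans_le ?_
      show (1 - ε) * (t ⌈(1 + ε) * Real.log (Real.log N)⌉₊ * Real.log (Real.log N)) ≤ _
      rw [le_div_iff₀ h4]
      have := mul_le_mul_of_nonneg_right h3 h5.le
      linarith
    · intro c' hc'
      obtain ⟨ε, hε0, hε1, hε⟩ := choose_up hc'
      have h1 := ((floor_lim hk (κ := 1 - ε) (by linarith)).comp hll).const_mul (1 + ε)
      have hval : (1 + ε) * (c / (1 - ε)) = (1 + ε) / (1 - ε) * c := by ring
      rw [hval] at h1
      filter_upwards [h1.eventually (gt_mem_nhds hε), hup ε hε0 hε1, hlg.eventually_gt_atTop 0,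
        hll.eventually_gt_atTop 0] with N h2 h3 h4 h5
      refine lt_of_le_of_lt ?_ h2
      show _ ≤ (1 + ε) * (t ⌊(1 - ε) * Real.log (Real.log N)⌋₊ * Real.log (Real.log N))
      rw [div_le_iff₀ h4]
      have := mul_le_mul_of_nonneg_right h3 h5.le
      linarith

end Pool.Agent.Helper26.TD
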