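import Pool.Agent.Helper26.TD.Iff

/-!
# TD-12 (MP_277c78_nt): the limits superior and inferior

With `l = log (log N)`, `f N = m N * l / log N`, `g k = k * t k`: for `k = ⌈(1 + ε) l⌉` the lower half gives
`f N ≥ (1 - ε) t k l ≥ (1 - ε) / (1 + 2 ε) * g k`, for `k = ⌊(1 - ε) l⌋` the upper half gives
`f N ≤ (1 + ε) t k l ≤ (1 + ε) ^ 2 / (1 - ε) * g k`; every large `k` is `⌈(1 + ε) l⌉` and `⌊(1 - ε) l⌋`
for some (large) `N`.
-/

set_option autoImplicit false

namespace Pool.Agent.Helper26.TD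

open Finset Filter Topology

/-- `log (log N)` hits every interval `((k - 1) / μ, k / μ)`, `k` large -/
private theorem hit {μ : ℝ} (hμ : 0 < μ) (N₀ : ℕ) : ∀ᶠ k : ℕ in atTop, ∃ N : ℕ, N₀ ≤ N ∧
    (k : ℝ) - 1 < μ * Real.log (Real.log N) ∧ μ * Real.log (Real.log N) < k := by
  have h0 := tendsto_natCast_atTop_atTop (R := ℝ)
  filter_upwards [h0.eventually_ge_atTop (2 * μ ^ 2 + 1), h0.eventually_ge_atTop (μ * N₀ + 1),
    h0.eventually_ge_atTop (1 : ℝ)] with k h1 h2 h3
  set a : ℝ := ((k : ℝ) - 1 / 2) / μ with ha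
  set b : ℝ := (k : ℝ) / μ with hb
  have haμ : μ * a = (k : ℝ) - 1 / 2 := by rw [ha]; field_simp
  have hbμ : μ * b = (k : ℝ) := by rw [hb]; field_simp
  have ha0 : 0 < a := div_pos (by linarith) hμ
  set N := ⌈Real.exp (Real.exp a)⌉₊ with hN
  have hN1 : Real.exp (Real.exp a) ≤ N := Nat.le_ceil _
  have hN2 : (N : ℝ) < Real.exp (Real.exp a) + 1 := Nat.ceil_lt_add_one (Real.exp_pos _).le
  have hE1 : a + 1 ≤ Real.exp a := Real.add_one_le_exp a
  have hE2 : Real.exp a + 1 ≤ Real.exp (Real.exp a) := Real.add_one_le_exp _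
  have hNpos : (0 : ℝ) < N := lt_of_lt_of_le (Real.exp_pos _) hN1
  have hlog1 : Real.exp a ≤ Real.log N := by
    rw [Real.le_log_iff_exp_le hNpos]
    exact hN1
  have hlogpos : 0 < Real.log N := lt_of_lt_of_le (Real.exp_pos _) hlog1
  refine ⟨N, ?_, ?_, ?_⟩
  · have h4 : (N₀ : ℝ) ≤ a := by
      rw [ha, le_div_iff₀ hμ]
      linarith
    have h5 : (N₀ : ℝ) ≤ N := by linarith
    exact_mod_cast h5
  · have h4 : a ≤ Real.log (Real.log N) := by
      rw [Real.le_log_iff_exp_le hlogpos]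
      exact hlog1
    have h5 := mul_le_mul_of_nonneg_left h4 hμ.le
    linarith
  · have hab : a * (b - a) ≥ 1 := by
      have h4 : b - a = 1 / (2 * μ) := by
        rw [ha, hb]
        field_simp
        ring
      rw [h4, ge_iff_le, mul_one_div, le_div_iff₀ (by positivity), ha, le_div_iff₀ hμ]
      nlinarith
    have hba : 0 < b - a := by
      by_contra hcon
      push Not at hcon
      nlinarith
    -- the gap
    have hgap : Real.exp (Real.exp a) + 1 ≤ Real.exp (Real.exp b) := by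
      have h5 : Real.exp a * (1 + (b - a)) ≤ Real.exp b := by
        have h6 : Real.exp b = Real.exp a * Real.exp (b - a) := by
          rw [← Real.exp_add]
          congr 1
          ring
        rw [h6]
        refine mul_le_mul_of_nonneg_left ?_ (Real.exp_pos _).le
        have := Real.add_one_le_exp (b - a)
        linarith
      have h7 : Real.exp (Real.exp a) * (1 + Real.exp a * (b - a)) ≤ Real.exp (Real.exp b) := by
        have h8 : Real.exp (Real.exp a) * Real.exp (Real.exp a * (b - a)) ≤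
            Real.exp (Real.exp b) := by
          rw [← Real.exp_add]
          apply Real.exp_le_exp.2
          linarith
        refine le_trans (mul_le_mul_of_nonneg_left ?_ (Real.exp_pos _).le) h8
        have := Real.add_one_le_exp (Real.exp a * (b - a))
        linarith
      have h9 : 1 ≤ Real.exp a * (b - a) := by
        have h10 : a * (b - a) ≤ Real.exp a * (b - a) :=
          mul_le_mul_of_nonneg_right (by linarith) hba.le
        linarith
      have h11 : 1 * 1 ≤ Real.exp (Real.exp a) * (Real.exp a * (b - a)) :=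
        mul_le_mul (by linarith) h9 (by norm_num) (Real.exp_pos _).le
      linarith
    have h12 : (N : ℝ) < Real.exp (Real.exp b) := lt_of_lt_of_le hN2 hgap
    have h13 : Real.log N < Real.exp b := (Real.log_lt_iff_lt_exp hNpos).2 h12
    have h14 : Real.log (Real.log N) < b := (Real.log_lt_iff_lt_exp hlogpos).2 h13
    have h15 := mul_lt_mul_of_pos_left h14 hμ
    linarith

private theorem ll_tendsto :
    Tendsto (fun N : ℕ => Real.log (Real.log N)) atTop atTop :=
  Real.tendsto_log_atTop.comp (Real.tendsto_log_atTop.comp tendsto_natCast_atTop_atTop)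

private theorem l_tendsto :
    Tendsto (fun N : ℕ => Real.log N) atTop atTop :=
  Real.tendsto_log_atTop.comp tendsto_natCast_atTop_atTop

private theorem limsup_le_of {u v : ℕ → ℝ} {C : ℝ} (hu0 : ∀ᶠ n in atTop, 0 ≤ u n)
    (hv0 : ∀ᶠ n in atTop, 0 ≤ v n) (hv1 : ∀ᶠ n in atTop, v n ≤ C)
    (h : ∀ c : ℝ, 1 < c → ∀ b : ℝ, 0 < b → (∀ᶠ n in atTop, v n < b) → ∀ᶠ n in atTop, u n ≤ c * b) :
    limsup u atTop ≤ limsup v atTop := by
  by_contra hcon
  push Not at hcon
  have hbv : IsBoundedUnder (· ≤ ·) atTop v := ⟨C, eventually_map.2 hv1⟩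
  have hcu : IsCoboundedUnder (· ≤ ·) atTop u :=
    (show IsBoundedUnder (· ≥ ·) atTop u from ⟨0, eventually_map.2 hu0⟩).isCoboundedUnder_le
  have hv : 0 ≤ limsup v atTop :=
    le_limsup_of_frequently_le hv0.frequently hbv
  obtain ⟨b, hb1, hb2⟩ := exists_between hcon
  have hb0 : 0 < b := lt_of_le_of_lt hv hb1
  obtain ⟨b', hb3, hb4⟩ := exists_between hb2
  have hc : 1 < b' / b := (one_lt_div hb0).2 hb3
  have h1 := h (b' / b) hc b hb0 (eventually_lt_of_limsup_lt hb1 hbv)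
  have h2 : b' / b * b = b' := by field_simp
  rw [h2] at h1
  have h3 : limsup u atTop ≤ b' := limsup_le_of_le hcu h1
  linarith

private theorem le_liminf_of {u v : ℕ → ℝ} {C : ℝ} (hu0 : ∀ᶠ n in atTop, 0 ≤ u n)
    (hu1 : ∀ᶠ n in atTop, u n ≤ C) (hv0 : ∀ᶠ n in atTop, 0 ≤ v n)
    (h : ∀ c : ℝ, 1 < c → ∀ b : ℝ, 0 < b → (∀ᶠ n in atTop, b < v n) → ∀ᶠ n in atTop, b ≤ c * u n) :
    liminf v atTop ≤ liminf u atTop := by
  by_contra hcon
  push Not at hcon
  have hbv : IsBoundedUnder (· ≥ ·) atTop v := ⟨0, eventually_map.2 hv0⟩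
  have hcu : IsCoboundedUnder (· ≥ ·) atTop u :=
    (show IsBoundedUnder (· ≤ ·) atTop u from ⟨C, eventually_map.2 hu1⟩).isCoboundedUnder_ge
  have hu : 0 ≤ liminf u atTop := le_liminf_of_le hcu hu0
  obtain ⟨b', hb1, hb2⟩ := exists_between hcon
  obtain ⟨b, hb3, hb4⟩ := exists_between hb2
  have hb0 : 0 < b' := lt_of_le_of_lt hu hb1
  have hb0' : 0 < b := hb0.trans hb3
  have hc : 1 < b / b' := (one_lt_div hb0).2 hb3
  have h1 := h (b / b') hc b hb0' (eventually_lt_of_lt_liminf hb4 hbv)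
  have h2 : b' ≤ liminf u atTop := by
    refine le_liminf_of_le hcu ?_
    filter_upwards [h1] with n hn
    have h3 : b * u n = b' * (b / b' * u n) := by
      field_simp
    have h4 : b' * b ≤ b' * (b / b' * u n) := mul_le_mul_of_nonneg_left hn hb0.le
    rw [← h3] at h4
    have h5 : b * b' ≤ b * u n := by linarith
    exact le_of_mul_le_mul_left h5 hb0'
  linarith

theorem lim_eq {m : ℕ → ℝ} {t : ℕ → ℝ} (ht0 : ∀ k, 0 ≤ t k) (hta : Antitone t)
    (hlow : ∀ ε : ℝ, 0 < ε → ε < 1 →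
      ∀ᶠ N : ℕ in atTop, (1 - ε) * t ⌈(1 + ε) * Real.log (Real.log N)⌉₊ * Real.log N ≤ m N)
    (hup : ∀ ε : ℝ, 0 < ε → ε < 1 →
      ∀ᶠ N : ℕ in atTop, m N ≤ (1 + ε) * t ⌊(1 - ε) * Real.log (Real.log N)⌋₊ * Real.log N)
    {C : ℝ} (hC : ∀ᶠ N : ℕ in atTop, m N * Real.log (Real.log N) / Real.log N ≤ C) :
    limsup (fun N : ℕ => m N * Real.log (Real.log N) / Real.log N) atTop =
        limsup (fun k : ℕ => (k : ℝ) * t k) atTop ∧
      liminf (fun N : ℕ => m N * Real.log (Real.log N) / Real.log N) atTop =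
        liminf (fun k : ℕ => (k : ℝ) * t k) atTop := by
  obtain ⟨f, hf⟩ : ∃ f : ℕ → ℝ, ∀ N, f N = m N * Real.log (Real.log N) / Real.log N :=
    ⟨_, fun _ => rfl⟩
  obtain ⟨g, hg⟩ : ∃ g : ℕ → ℝ, ∀ k, g k = (k : ℝ) * t k := ⟨_, fun _ => rfl⟩
  have hff : (fun N : ℕ => m N * Real.log (Real.log N) / Real.log N) = f :=
    funext fun N => (hf N).symm
  have hgg : (fun k : ℕ => (k : ℝ) * t k) = g := funext fun k => (hg k).symm
  rw [hff, hgg]
  have hC' : ∀ᶠ N in atTop, f N ≤ C := by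
    filter_upwards [hC] with N hN
    rw [hf]
    exact hN
  have hg0 : ∀ k, 0 ≤ g k := fun k => by
    rw [hg]
    exact mul_nonneg (Nat.cast_nonneg k) (ht0 k)
  have hll := ll_tendsto
  have hl := l_tendsto
  have hf0 : ∀ᶠ N in atTop, 0 ≤ f N := by
    filter_upwards [hlow (1 / 2) (by norm_num) (by norm_num), hll.eventually_ge_atTop 0,
      hl.eventually_ge_atTop 0] with N h1 h2 h3
    rw [hf]
    refine div_nonneg (mul_nonneg (le_trans ?_ h1) h2) h3
    exact mul_nonneg (mul_nonneg (by norm_num) (ht0 _)) h3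
  -- the upper half
  have hU : ∀ c : ℝ, 1 < c → ∃ μ : ℝ, 0 < μ ∧ ∀ᶠ N : ℕ in atTop,
      f N ≤ c * g ⌊μ * Real.log (Real.log N)⌋₊ := by
    intro c hc
    obtain ⟨ε, hε⟩ : ∃ ε : ℝ, ε = (c - 1) / (c + 3) := ⟨_, rfl⟩
    have hε0 : 0 < ε := by rw [hε]; exact div_pos (by linarith) (by linarith)
    have hε1 : ε < 1 := by rw [hε, div_lt_one (by linarith)]; linarith
    have hεc : c * (1 - ε) = 1 + 3 * ε := by
      have h1 : ε * (c + 3) = c - 1 := by rw [hε]; field_simp
      linarith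
    refine ⟨1 - ε, by linarith, ?_⟩
    filter_upwards [hup ε hε0 hε1, hll.eventually_ge_atTop ((1 / ε + 1) / (1 - ε)),
      hl.eventually_gt_atTop 0] with N h1 h2 h3
    set l := Real.log (Real.log N) with hldef
    set k := ⌊(1 - ε) * l⌋₊ with hk
    have hε2 : 0 < 1 - ε := by linarith
    rw [div_le_iff₀ hε2] at h2
    have h4 : (1 - ε) * l < k + 1 := Nat.lt_floor_add_one _
    have h5 : 1 / ε < k := by linarith
    have h6 : 1 < ε * k := by
      rw [div_lt_iff₀ hε0] at h5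
      linarith
    have hl0 : 0 ≤ l := by
      have : 0 < 1 / ε := by positivity
      by_contra hcon
      push Not at hcon
      nlinarith
    have h7 : f N ≤ (1 + ε) * t k * l := by
      rw [hf, div_le_iff₀ h3]
      have h8 := mul_le_mul_of_nonneg_right h1 hl0
      linarith
    have htk := ht0 k
    have h8 : (1 - ε) * l * t k ≤ (1 + ε) * g k := by
      rw [hg]
      have h9 : (1 - ε) * l ≤ (1 + ε) * k := by linarith
      calc (1 - ε) * l * t k ≤ (1 + ε) * k * t k := mul_le_mul_of_nonneg_right h9 htk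
        _ = (1 + ε) * (k * t k) := by ring
    have h9 : (1 - ε) * f N ≤ (1 - ε) * (c * g k) := by
      calc (1 - ε) * f N ≤ (1 - ε) * ((1 + ε) * t k * l) := mul_le_mul_of_nonneg_left h7 hε2.le
        _ = (1 + ε) * ((1 - ε) * l * t k) := by ring
        _ ≤ (1 + ε) * ((1 + ε) * g k) := mul_le_mul_of_nonneg_left h8 (by linarith)
        _ ≤ (1 + 3 * ε) * g k := by
            have h10 : (1 + ε) * (1 + ε) ≤ 1 + 3 * ε := by nlinarith
            calc (1 + ε) * ((1 + ε) * g k) = ((1 + ε) * (1 + ε)) * g k := by ring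
              _ ≤ _ := mul_le_mul_of_nonneg_right h10 (hg0 k)
        _ = (1 - ε) * (c * g k) := by rw [← hεc]; ring
    exact le_of_mul_le_mul_left h9 hε2
  -- the lower half
  have hL : ∀ c : ℝ, 1 < c → ∃ μ : ℝ, 0 < μ ∧ ∀ᶠ N : ℕ in atTop,
      g ⌈μ * Real.log (Real.log N)⌉₊ ≤ c * f N := by
    intro c hc
    obtain ⟨ε, hε⟩ : ∃ ε : ℝ, ε = (c - 1) / (c + 3) := ⟨_, rfl⟩
    have hε0 : 0 < ε := by rw [hε]; exact div_pos (by linarith) (by linarith)
    have hε1 : ε < 1 := by rw [hε, div_lt_one (by linarith)]; linarith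
    have hεc : c * (1 - ε) = 1 + 3 * ε := by
      have h1 : ε * (c + 3) = c - 1 := by rw [hε]; field_simp
      linarith
    refine ⟨1 + ε, by linarith, ?_⟩
    filter_upwards [hlow ε hε0 hε1, hll.eventually_ge_atTop (1 / ε),
      hl.eventually_gt_atTop 0, hf0] with N h1 h2 h3 hf0
    set l := Real.log (Real.log N) with hldef
    set k := ⌈(1 + ε) * l⌉₊ with hk
    have hε2 : 0 < 1 - ε := by linarith
    rw [div_le_iff₀ hε0] at h2
    have hl0 : 0 ≤ l := by
      by_contra hcon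
      push Not at hcon
      nlinarith
    have h4 : (k : ℝ) < (1 + ε) * l + 1 := Nat.ceil_lt_add_one (by positivity)
    have htk := ht0 k
    have h5 : g k ≤ (1 + 2 * ε) * (l * t k) := by
      rw [hg]
      have h6 : (k : ℝ) ≤ (1 + 2 * ε) * l := by linarith
      calc (k : ℝ) * t k ≤ (1 + 2 * ε) * l * t k := mul_le_mul_of_nonneg_right h6 htk
        _ = _ := by ring
    have h7 : (1 - ε) * (l * t k) ≤ f N := by
      rw [hf, le_div_iff₀ h3]
      have h8 := mul_le_mul_of_nonneg_right h1 hl0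
      linarith
    have h9 : (1 - ε) * g k ≤ (1 - ε) * (c * f N) := by
      calc (1 - ε) * g k ≤ (1 - ε) * ((1 + 2 * ε) * (l * t k)) :=
            mul_le_mul_of_nonneg_left h5 hε2.le
        _ = (1 + 2 * ε) * ((1 - ε) * (l * t k)) := by ring
        _ ≤ (1 + 2 * ε) * f N := mul_le_mul_of_nonneg_left h7 (by linarith)
        _ ≤ (1 + 3 * ε) * f N := mul_le_mul_of_nonneg_right (by linarith) hf0
        _ = (1 - ε) * (c * f N) := by rw [← hεc]; ring
    exact le_of_mul_le_mul_left h9 hε2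
  -- transfer to `k`
  have hLk : ∀ c : ℝ, 1 < c → ∀ P : ℝ → Prop, (∀ᶠ N in atTop, P (f N)) →
      ∀ᶠ k in atTop, ∃ N, P (f N) ∧ g k ≤ c * f N := by
    intro c hc P hP
    obtain ⟨μ, hμ, h1⟩ := hL c hc
    obtain ⟨N₀, hN₀⟩ := eventually_atTop.1 (h1.and hP)
    filter_upwards [hit hμ N₀, eventually_ge_atTop 1] with k hk hk1
    obtain ⟨N, h2, h3, h4⟩ := hk
    obtain ⟨h5, h6⟩ := hN₀ N h2
    have h7 : ⌈μ * Real.log (Real.log N)⌉₊ = k := by
      rw [Nat.ceil_eq_iff (by omega)]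
      refine ⟨?_, h4.le⟩
      rw [Nat.cast_sub hk1, Nat.cast_one]
      exact h3
    rw [h7] at h5
    exact ⟨N, h6, h5⟩
  have hUk : ∀ c : ℝ, 1 < c → ∀ P : ℝ → Prop, (∀ᶠ N in atTop, P (f N)) →
      ∀ᶠ k in atTop, ∃ N, P (f N) ∧ f N ≤ c * g k := by
    intro c hc P hP
    obtain ⟨μ, hμ, h1⟩ := hU c hc
    obtain ⟨N₀, hN₀⟩ := eventually_atTop.1 (h1.and hP)
    have h2 : ∀ᶠ k : ℕ in atTop, ∃ N : ℕ, N₀ ≤ N ∧
        ((k + 1 : ℕ) : ℝ) - 1 < μ * Real.log (Real.log N) ∧
          μ * Real.log (Real.log N) < ((k + 1 : ℕ) : ℝ) :=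
      (tendsto_add_atTop_nat 1).eventually (hit hμ N₀)
    filter_upwards [h2] with k hk
    obtain ⟨N, h2, h3, h4⟩ := hk
    obtain ⟨h5, h6⟩ := hN₀ N h2
    push_cast at h3 h4
    have h7 : ⌊μ * Real.log (Real.log N)⌋₊ = k := by
      rw [Nat.floor_eq_iff (by
        have : (0:ℝ) ≤ k := Nat.cast_nonneg k
        linarith)]
      exact ⟨by linarith, h4⟩
    rw [h7] at h5
    exact ⟨N, h6, h5⟩
  have hκ : ∀ μ : ℝ, 0 < μ → Tendsto (fun N : ℕ => μ * Real.log (Real.log N)) atTop atTop :=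
    fun μ hμ => hll.const_mul_atTop hμ
  obtain ⟨C', hC1, hC2⟩ : ∃ C' : ℝ, C ≤ C' ∧ 2 * C ≤ C' := ⟨max C (2 * C), le_max_left _ _,
    le_max_right _ _⟩
  have hfb : ∀ᶠ N in atTop, f N ≤ C' := hC'.mono fun N h => h.trans hC1
  have hgb : ∀ᶠ k in atTop, g k ≤ C' := by
    filter_upwards [hLk 2 (by norm_num) (fun x => x ≤ C) hC'] with k hk
    obtain ⟨N, h1, h2⟩ := hk
    linarith
  have hg0' : ∀ᶠ k in atTop, 0 ≤ g k := Eventually.of_forall hg0
  refine ⟨le_antisymm ?_ ?_, le_antisymm ?_ ?_⟩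
  · refine limsup_le_of hf0 hg0' hgb fun c hc b hb h => ?_
    obtain ⟨μ, hμ, h1⟩ := hU c hc
    filter_upwards [h1, ((tendsto_nat_floor_atTop (α := ℝ)).comp (hκ μ hμ)).eventually h] with N h2 h3
    exact h2.trans (mul_le_mul_of_nonneg_left (le_of_lt h3) (by linarith))
  · refine limsup_le_of hg0' hf0 hfb fun c hc b hb h => ?_
    filter_upwards [hLk c hc (fun x => x < b) h] with k hk
    obtain ⟨N, h1, h2⟩ := hk
    exact h2.trans (mul_le_mul_of_nonneg_left h1.le (by linarith))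
  · refine le_liminf_of hg0' hgb hf0 fun c hc b hb h => ?_
    filter_upwards [hUk c hc (fun x => b < x) h] with k hk
    obtain ⟨N, h1, h2⟩ := hk
    exact h1.le.trans h2
  · refine le_liminf_of hf0 hfb hg0' fun c hc b hb h => ?_
    obtain ⟨μ, hμ, h1⟩ := hL c hc
    filter_upwards [h1, ((tendsto_nat_ceil_atTop (α := ℝ)).comp (hκ μ hμ)).eventually h] with N h2 h3
    exact (le_of_lt h3).trans h2

end Pool.Agent.Helper26.TD
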