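import Pool.Agent.Helper26.TD.Defs

/-!
# TD-1 (MP_277c78_nt): Turán numbers and densities

The normalized Turán numbers decrease, so the density is a limit.
-/

set_option autoImplicit false

namespace Pool.Agent.Helper26.TD

open Finset Filter Topology
open Pool.Agent.Helper16.UB (Admissible M)
open Pool.Agent.Helper34.RB (Bdd)

/-- `Good` without the instances. -/
theorem good_iff {X : Type} {r k : ℕ} {F : Finset (Finset X)} :
    Good r k F ↔ (∀ e ∈ F, e.card = k) ∧ ∀ T : Finset X, T.card = k + 1 →
      ∀ S : Finset (Finset X), S ⊆ F → (∀ e ∈ S, e ⊆ T) → S.card ≤ r := by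
  classical
  constructor
  · rintro ⟨h1, h2⟩
    refine ⟨h1, fun T hT S hS hST => le_trans (card_le_card fun e he => ?_) (h2 T hT)⟩
    exact mem_filter.2 ⟨hS he, hST e he⟩
  · rintro ⟨h1, h2⟩
    exact ⟨h1, fun T hT => h2 T hT _ (filter_subset _ _) fun e he => (mem_filter.1 he).2⟩

open Classical in
/-- The preimage of a family under an embedding. -/
noncomputable def pull {X Y : Type} [Fintype X] (f : X ↪ Y) (G : Finset (Finset Y)) : Finset (Finset X) :=
  univ.filter fun e => e.map f ∈ G

theorem mem_pull {X Y : Type} [Fintype X] {f : X ↪ Y} {G : Finset (Finset Y)} {e : Finset X} :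
    e ∈ pull f G ↔ e.map f ∈ G := by
  classical
  unfold pull
  rw [mem_filter]
  simp

theorem good_pull {X Y : Type} [Fintype X] (f : X ↪ Y) {r k : ℕ} {G : Finset (Finset Y)} (hG : Good r k G) :
    Good r k (pull f G) := by
  classical
  rw [good_iff] at hG ⊢
  refine ⟨fun e he => ?_, fun T hT S hS hST => ?_⟩
  · rw [← hG.1 _ (mem_pull.1 he), card_map]
  · have h1 := hG.2 (T.map f) (by rw [card_map, hT]) (S.image fun e => e.map f) (by
      intro e he
      obtain ⟨e', he', rfl⟩ := mem_image.1 he
      exact mem_pull.1 (hS he')) (by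
      intro e he
      obtain ⟨e', he', rfl⟩ := mem_image.1 he
      exact map_subset_map.2 (hST e' he'))
    rwa [card_image_of_injective _ (Finset.map_injective f)] at h1

theorem card_pull_equiv {X Y : Type} [Fintype X] (f : X ≃ Y) (G : Finset (Finset Y)) :
    (pull f.toEmbedding G).card = G.card := by
  classical
  have h1 : (pull f.toEmbedding G).image (fun e => e.map f.toEmbedding) = G := by
    ext e
    rw [mem_image]
    constructor
    · rintro ⟨e', he', rfl⟩
      exact mem_pull.1 he'
    · intro he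
      have h2 : (e.map f.symm.toEmbedding).map f.toEmbedding = e := by
        rw [Finset.map_map]
        ext x
        simp
      exact ⟨e.map f.symm.toEmbedding, mem_pull.2 (by rw [h2]; exact he), h2⟩
  conv_rhs => rw [← h1]
  rw [card_image_of_injective _ (Finset.map_injective _)]

private theorem ex_bdd (r k n : ℕ) :
    BddAbove {m | ∃ F : Finset (Finset (Fin n)), Good r k F ∧ F.card = m} := by
  refine ⟨Fintype.card (Finset (Fin n)), ?_⟩
  rintro m ⟨F, -, rfl⟩
  exact card_le_univ F

private theorem good_empty {X : Type} (r k : ℕ) : Good r k (∅ : Finset (Finset X)) := by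
  rw [good_iff]
  refine ⟨by simp, fun T _ S hS _ => ?_⟩
  rw [subset_empty.1 hS, card_empty]
  exact Nat.zero_le _

theorem le_ex {r k n : ℕ} {F : Finset (Finset (Fin n))} (hF : Good r k F) : F.card ≤ ex r k n :=
  le_csSup (ex_bdd r k n) ⟨F, hF, rfl⟩

theorem card_le_ex {X : Type} [Fintype X] {r k : ℕ} {F : Finset (Finset X)} (hF : Good r k F) :
    F.card ≤ ex r k (Fintype.card X) := by
  have h1 := le_ex (good_pull (Fintype.equivFin X).symm.toEmbedding hF)
  rwa [card_pull_equiv] at h1

theorem exists_ex (r k n : ℕ) : ∃ F : Finset (Finset (Fin n)), Good r k F ∧ F.card = ex r k n :=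
  Nat.sSup_mem (s := {m | ∃ F : Finset (Finset (Fin n)), Good r k F ∧ F.card = m})
    ⟨0, ∅, good_empty r k, card_empty⟩ (ex_bdd r k n)

theorem ex_le (r k n : ℕ) : ex r k n ≤ n.choose k := by
  obtain ⟨F, hF, hc⟩ := exists_ex r k n
  rw [← hc]
  have h1 : F ⊆ powersetCard k univ := fun e he => mem_powersetCard.2 ⟨subset_univ _, hF.1 e he⟩
  have h2 := card_le_card h1
  rwa [card_powersetCard, card_univ, Fintype.card_fin] at h2

private theorem card_pull_succ {n : ℕ} (v : Fin (n + 1)) (F : Finset (Finset (Fin (n + 1)))) :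
    (pull v.succAboveEmb F).card = (F.filter fun e => v ∉ e).card := by
  classical
  have h1 : (pull v.succAboveEmb F).image (fun e => e.map v.succAboveEmb) = F.filter fun e => v ∉ e := by
    ext e
    rw [mem_image, mem_filter]
    constructor
    · rintro ⟨e', he', rfl⟩
      refine ⟨mem_pull.1 he', fun hv => ?_⟩
      obtain ⟨x, -, hx⟩ := Finset.mem_map.1 hv
      exact Fin.succAbove_ne v x hx
    · rintro ⟨he, hv⟩
      have h2 : (univ.filter fun i => v.succAbove i ∈ e).map v.succAboveEmb = e := by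
        ext x
        rw [Finset.mem_map]
        constructor
        · rintro ⟨i, hi, rfl⟩
          exact (mem_filter.1 hi).2
        · intro hx
          have hxv : x ≠ v := fun h => hv (h ▸ hx)
          obtain ⟨i, hi⟩ := Fin.exists_succAbove_eq hxv
          exact ⟨i, mem_filter.2 ⟨mem_univ _, by rw [hi]; exact hx⟩, hi⟩
      exact ⟨_, mem_pull.2 (by rw [h2]; exact he), h2⟩
  rw [← h1, card_image_of_injective _ (Finset.map_injective _)]

theorem ex_succ_mul {r k n : ℕ} : (n + 1 - k) * ex r k (n + 1) ≤ (n + 1) * ex r k n := by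
  classical
  obtain ⟨F, hF, hc⟩ := exists_ex r k (n + 1)
  rw [← hc]
  have h1 : ∑ v : Fin (n + 1), (F.filter fun e => v ∉ e).card = (n + 1 - k) * F.card := by
    have h2 : ∀ v : Fin (n + 1), (F.filter fun e => v ∉ e).card = ∑ e ∈ F, if v ∉ e then 1 else 0 := fun v => by
      rw [card_filter]
    rw [sum_congr rfl fun v _ => h2 v, sum_comm]
    have h3 : ∀ e ∈ F, (∑ v : Fin (n + 1), if v ∉ e then 1 else 0) = n + 1 - k := by
      intro e he
      rw [← card_filter, ← hF.1 e he]
      have h4 : (univ.filter fun v => v ∉ e) = eᶜ := by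
        ext v
        simp
      rw [h4, card_compl, Fintype.card_fin]
    rw [sum_congr rfl h3, sum_const, smul_eq_mul, mul_comm]
  rw [← h1]
  calc ∑ v : Fin (n + 1), (F.filter fun e => v ∉ e).card ≤ ∑ _v : Fin (n + 1), ex r k n := by
        refine sum_le_sum fun v _ => ?_
        rw [← card_pull_succ v F]
        exact le_ex (good_pull _ hF)
    _ = (n + 1) * ex r k n := by rw [sum_const, card_univ, Fintype.card_fin, smul_eq_mul]

theorem ex_succ_le {r k n : ℕ} (h : k ≤ n) :
    (ex r k (n + 1) : ℝ) / ((n + 1).choose k : ℝ) ≤ (ex r k n : ℝ) / (n.choose k : ℝ) := by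
  have c1 : 0 < n.choose k := Nat.choose_pos h
  have c2 : 0 < (n + 1).choose k := Nat.choose_pos (by omega)
  rw [div_le_div_iff₀ (by exact_mod_cast c2) (by exact_mod_cast c1)]
  have h1 : ex r k (n + 1) * n.choose k ≤ ex r k n * (n + 1).choose k := by
    have h2 := Nat.choose_mul_succ_eq n k
    have h3 := ex_succ_mul (r := r) (k := k) (n := n)
    have h4 : (n + 1) * (ex r k (n + 1) * n.choose k) ≤ (n + 1) * (ex r k n * (n + 1).choose k) := by
      calc (n + 1) * (ex r k (n + 1) * n.choose k) = ex r k (n + 1) * (n.choose k * (n + 1)) := by ring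
        _ = ex r k (n + 1) * ((n + 1).choose k * (n + 1 - k)) := by rw [h2]
        _ = (n + 1).choose k * ((n + 1 - k) * ex r k (n + 1)) := by ring
        _ ≤ (n + 1).choose k * ((n + 1) * ex r k n) := Nat.mul_le_mul_left _ h3
        _ = (n + 1) * (ex r k n * (n + 1).choose k) := by ring
    exact Nat.le_of_mul_le_mul_left h4 (by omega)
  exact_mod_cast h1

private theorem anti (r k : ℕ) :
    Antitone fun m : ℕ => (ex r k (m + k) : ℝ) / ((m + k).choose k : ℝ) := by
  refine antitone_nat_of_succ_le fun m => ?_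
  have h1 := ex_succ_le (r := r) (k := k) (n := m + k) (by omega)
  have e : m + 1 + k = m + k + 1 := by ring
  rw [e]
  exact h1

private theorem nonneg (r k n : ℕ) : 0 ≤ (ex r k n : ℝ) / (n.choose k : ℝ) := by positivity

theorem tendsto_td (r k : ℕ) :
    Tendsto (fun n : ℕ => (ex r k n : ℝ) / (n.choose k : ℝ)) atTop (𝓝 (td r k)) := by
  refine tendsto_nhds_limUnder ⟨⨅ m : ℕ, (ex r k (m + k) : ℝ) / ((m + k).choose k : ℝ), ?_⟩
  rw [← tendsto_add_atTop_iff_nat k]
  exact tendsto_atTop_ciInf (anti r k) ⟨0, by rintro x ⟨m, rfl⟩; exact nonneg r k _⟩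

theorem td_le {r k n : ℕ} (h : k ≤ n) : td r k ≤ (ex r k n : ℝ) / (n.choose k : ℝ) := by
  have h1 : Tendsto (fun m : ℕ => (ex r k (m + k) : ℝ) / ((m + k).choose k : ℝ)) atTop (𝓝 (td r k)) :=
    (tendsto_add_atTop_iff_nat k).2 (tendsto_td r k)
  have h2 := (anti r k).le_of_tendsto h1 (n - k)
  rwa [Nat.sub_add_cancel h] at h2

theorem td_nonneg (r k : ℕ) : 0 ≤ td r k :=
  ge_of_tendsto' (tendsto_td r k) fun n => nonneg r k n

theorem td_le_one (r k : ℕ) : td r k ≤ 1 := by
  refine le_of_tendsto' (tendsto_td r k) fun n => ?_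
  refine div_le_one_of_le₀ ?_ (Nat.cast_nonneg _)
  exact_mod_cast ex_le r k n

end Pool.Agent.Helper26.TD
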