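import Pool.Agent.Helper26.TD.Perm
import Pool.Agent.Helper26.TD.Turan

/-!
# MP_277c78_nt: an exact lower inequality
-/

set_option autoImplicit false

namespace Pool.Agent.Helper26.TD

open Finset Filter Topology
open Pool.Agent.Helper16.UB (Admissible M)
open Pool.Agent.Helper34.RB (Bdd le_M)
open Pool.Agent.Helper81.RU (SP adm2)

theorem card_pp {a : ℕ} (ha : a ≠ 0) :
    (a.divisors.filter IsPrimePow).card = ArithmeticFunction.cardFactors a := by
  induction a using Nat.recOnPosPrimePosCoprime with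
  | zero => exact absurd rfl ha
  | one => simp [not_isPrimePow_one]
  | prime_pow p n hp hn =>
    rw [ArithmeticFunction.cardFactors_apply_prime_pow hp]
    have : (p ^ n).divisors.filter IsPrimePow = (Icc 1 n).image (fun i => p ^ i) := by
      ext q
      rw [mem_filter, Nat.mem_divisors, mem_image]
      constructor
      · rintro ⟨⟨hq, _⟩, hqq⟩
        obtain ⟨i, hi, rfl⟩ := (Nat.dvd_prime_pow hp).1 hq
        refine ⟨i, mem_Icc.2 ⟨?_, hi⟩, rfl⟩
        by_contra h
        have : i = 0 := by omega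
        rw [this, pow_zero] at hqq
        exact not_isPrimePow_one hqq
      · rintro ⟨i, hi, rfl⟩
        rw [mem_Icc] at hi
        exact ⟨⟨pow_dvd_pow p hi.2, (pow_pos hp.pos n).ne'⟩, hp.isPrimePow.pow (by omega)⟩
    rw [this, card_image_of_injective _ (Nat.pow_right_injective hp.two_le)]
    simp
  | coprime a b ha1 hb1 hab iha ihb =>
    rw [Nat.mul_divisors_filter_prime_pow hab, filter_union,
      card_union_of_disjoint (Nat.disjoint_divisors_filter_isPrimePow hab),
      iha (by omega), ihb (by omega), ArithmeticFunction.cardFactors_mul (by omega) (by omega)]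

theorem SP_card {N a : ℕ} (ha : a ∈ Icc 1 N) :
    (SP N a).card = ArithmeticFunction.cardFactors a := by
  rw [mem_Icc] at ha
  rw [← card_pp (by omega)]
  refine card_bij (fun q _ => (q : ℕ)) ?_ ?_ ?_
  · intro q hq
    rw [SP, mem_filter] at hq
    rw [mem_filter, Nat.mem_divisors]
    exact ⟨⟨hq.2.2, by omega⟩, hq.2.1⟩
  · intro q _ q' _ h
    exact Fin.ext h
  · intro q hq
    rw [mem_filter, Nat.mem_divisors] at hq
    have h1 := Nat.le_of_dvd (by omega) hq.1.1
    refine ⟨⟨q, by omega⟩, ?_, rfl⟩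
    rw [SP, mem_filter]
    exact ⟨mem_univ _, hq.2, hq.1.1⟩

/-- `∑_{n ≤ N} π_{Ω(n)}(r) / n ≤ M_r(N)` -/
theorem lower_exact {r : ℕ} (hr : 1 ≤ r) (N : ℕ) :
    ∑ n ∈ Icc 1 N, td r (ArithmeticFunction.cardFactors n) * (1 / (n : ℝ)) ≤ M r N := by
  classical
  obtain ⟨F, hF1, hF2⟩ := exists_fam r N (Icc 1 N) (SP N) (fun a => 1 / (a : ℝ))
    (fun a _ => by positivity)
  have hadm : Admissible r N ((Icc 1 N).filter fun a => F (SP N a)) := by
    refine adm2 hr F hF1 _ fun a ha => ?_
    have h1 := mem_filter.mp ha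
    have h2 := mem_Icc.mp h1.1
    exact ⟨h2.1, h2.2, h1.2⟩
  refine le_trans ?_ (le_M hadm)
  refine le_trans (le_of_eq ?_) hF2
  exact sum_congr rfl fun a ha => by rw [SP_card ha]

end Pool.Agent.Helper26.TD
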