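import Pool.Agent.Helper26.TD.Lower
import Pool.Agent.Helper26.TD.LowerExact
import Pool.Agent.Helper26.TD.Asym
import Pool.Agent.Helper26.TD.Iff
import Pool.Agent.Helper26.TD.LimSup

/-!
# Project TD (MP_277c78_nt): assembly
-/

set_option autoImplicit false

namespace Pool.Agent.Helper26.TD

open Finset Filter Topology
open Pool.Agent.Helper16.UB (Admissible M upper)

theorem main {r : ℕ} (hr : 2 ≤ r) (c : ℝ) :
    Tendsto (fun N : ℕ => M r N * Real.log (Real.log N) / Real.log N) atTop (𝓝 c) ↔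
      Tendsto (fun k : ℕ => (k : ℝ) * td r k) atTop (𝓝 c) :=
  iff_lim (td_nonneg r) (td_anti r) (fun _ h h' => lower_half (by omega) h h')
    (fun _ h h' => upper_half hr h h') c

lemma M_le {r : ℕ} (hr : 1 ≤ r) {ε : ℝ} (hε : 0 < ε) :
    ∀ᶠ N : ℕ in atTop, M r N * Real.log (Real.log N) / Real.log N ≤ (r : ℝ) - 1 + ε := by
  have hll := Helper16.UB.tendsto_ll
  filter_upwards [upper r hr ε hε, hll.eventually_gt_atTop (0 : ℝ),
    Helper16.UB.tendsto_log_nat.eventually_gt_atTop (0 : ℝ)] with N h1 h2 h3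
  have h2' : 0 < Real.log (Real.log N) := h2
  have h : M r N ≤ ((r : ℝ) - 1 + ε) * (Real.log N / Real.log (Real.log N)) := by
    apply csSup_le
    · refine ⟨0, ∅, ⟨by simp, ?_⟩, by simp⟩
      intro m _
      unfold Pool.Agent.Helper16.UB.R
      simp
    · rintro s ⟨A, hA, rfl⟩
      exact h1 A hA
  rw [div_le_iff₀ h3]
  calc M r N * Real.log (Real.log N)
      ≤ ((r : ℝ) - 1 + ε) * (Real.log N / Real.log (Real.log N)) * Real.log (Real.log N) :=
        mul_le_mul_of_nonneg_right h h2'.le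
    _ = ((r : ℝ) - 1 + ε) * Real.log N := by
        field_simp

lemma le_M' {r : ℕ} (hr : 2 ≤ r) :
    ∀ᶠ N : ℕ in atTop, ((r : ℝ) - 1) / 11 ≤ M r N * Real.log (Real.log N) / Real.log N := by
  have hll := Helper16.UB.tendsto_ll
  filter_upwards [Helper81.RV.lower hr, hll.eventually_gt_atTop (0 : ℝ),
    Helper16.UB.tendsto_log_nat.eventually_gt_atTop (0 : ℝ)] with N h1 h2 h3
  have h2' : 0 < Real.log (Real.log N) := h2
  rw [le_div_iff₀ h3]
  calc ((r : ℝ) - 1) / 11 * Real.log N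
      = ((r : ℝ) - 1) / 11 * (Real.log N / Real.log (Real.log N)) * Real.log (Real.log N) := by
        field_simp
    _ ≤ _ := mul_le_mul_of_nonneg_right h1 h2'.le

lemma limsup_le {r : ℕ} (hr : 2 ≤ r) :
    limsup (fun N : ℕ => M r N * Real.log (Real.log N) / Real.log N) atTop ≤ (r : ℝ) - 1 := by
  refine le_of_forall_pos_le_add fun ε hε => ?_
  refine limsup_le_of_le ?_ (M_le (by omega) hε)
  exact IsBoundedUnder.isCoboundedUnder_le ⟨_, eventually_map.2 (le_M' hr)⟩

lemma le_liminf {r : ℕ} (hr : 2 ≤ r) :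
    ((r : ℝ) - 1) / 11 ≤
      liminf (fun N : ℕ => M r N * Real.log (Real.log N) / Real.log N) atTop := by
  refine le_liminf_of_le ?_ (le_M' hr)
  exact IsBoundedUnder.isCoboundedUnder_ge
    ⟨_, eventually_map.2 (M_le (r := r) (by omega) one_pos)⟩

lemma le_M'' {r : ℕ} (hr : 2 ≤ r) {ε : ℝ} (hε : 0 < ε) :
    ∀ᶠ N : ℕ in atTop, (r : ℝ) - 200 * √((r : ℝ) * Real.log r) - ε ≤
      M r N * Real.log (Real.log N) / Real.log N := by
  have hll := Helper16.UB.tendsto_ll
  filter_upwards [Helper34.RB.lower hr hε, hll.eventually_gt_atTop (0 : ℝ),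
    Helper16.UB.tendsto_log_nat.eventually_gt_atTop (0 : ℝ)] with N h1 h2 h3
  have h2' : 0 < Real.log (Real.log N) := h2
  rw [le_div_iff₀ h3]
  calc ((r : ℝ) - 200 * √((r : ℝ) * Real.log r) - ε) * Real.log N
      = ((r : ℝ) - 200 * √((r : ℝ) * Real.log r) - ε) * (Real.log N / Real.log (Real.log N)) *
          Real.log (Real.log N) := by
        field_simp
    _ ≤ _ := mul_le_mul_of_nonneg_right h1 h2'.le

lemma le_liminf' {r : ℕ} (hr : 2 ≤ r) :
    (r : ℝ) - 200 * √((r : ℝ) * Real.log r) ≤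
      liminf (fun N : ℕ => M r N * Real.log (Real.log N) / Real.log N) atTop := by
  refine le_of_forall_pos_le_add fun ε hε => ?_
  rw [← sub_le_iff_le_add]
  refine le_liminf_of_le ?_ (le_M'' hr hε)
  exact IsBoundedUnder.isCoboundedUnder_ge
    ⟨_, eventually_map.2 (M_le (r := r) (by omega) one_pos)⟩

theorem limits {r : ℕ} (hr : 2 ≤ r) :
    limsup (fun N : ℕ => M r N * Real.log (Real.log N) / Real.log N) atTop =
        limsup (fun k : ℕ => (k : ℝ) * td r k) atTop ∧
      liminf (fun N : ℕ => M r N * Real.log (Real.log N) / Real.log N) atTop =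
        liminf (fun k : ℕ => (k : ℝ) * td r k) atTop :=
  lim_eq (td_nonneg r) (td_anti r) (fun _ h h' => lower_half (by omega) h h')
    (fun _ h h' => upper_half hr h h') (M_le (r := r) (by omega) one_pos)

end Pool.Agent.Helper26.TD
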