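import Pool.Agent.Helper26.TD.Turan

/-!
# TD-2 (MP_277c78_nt): links, the Turán densities decrease
-/

set_option autoImplicit false

namespace Pool.Agent.Helper26.TD

open Finset Filter Topology
open Pool.Agent.Helper16.UB (Admissible M)
open Pool.Agent.Helper34.RB (Bdd)

/-- add the point `v` to a set of the other points -/
def coneV {n : ℕ} (v : Fin (n + 1)) (e : Finset (Fin n)) : Finset (Fin (n + 1)) :=
  insert v (e.map v.succAboveEmb)

lemma notMem_map {n : ℕ} (v : Fin (n + 1)) (e : Finset (Fin n)) : v ∉ e.map v.succAboveEmb := by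
  intro h
  rw [Finset.mem_map] at h
  obtain ⟨i, -, hi⟩ := h
  exact Fin.succAbove_ne v i hi

lemma card_coneV {n : ℕ} (v : Fin (n + 1)) (e : Finset (Fin n)) : (coneV v e).card = e.card + 1 := by
  rw [coneV, card_insert_of_notMem (notMem_map v e), card_map]

lemma coneV_subset {n : ℕ} {v : Fin (n + 1)} {e T : Finset (Fin n)} (h : e ⊆ T) :
    coneV v e ⊆ coneV v T :=
  insert_subset_insert _ (map_subset_map.2 h)

lemma coneV_inj {n : ℕ} {v : Fin (n + 1)} {e e' : Finset (Fin n)} (h : coneV v e = coneV v e') :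
    e = e' := by
  have h1 : (coneV v e).erase v = (coneV v e').erase v := by rw [h]
  rw [coneV, coneV, erase_insert (notMem_map v e), erase_insert (notMem_map v e')] at h1
  exact map_injective _ h1

/-- the other points of a set -/
def traceV {n : ℕ} (v : Fin (n + 1)) (e : Finset (Fin (n + 1))) : Finset (Fin n) :=
  univ.filter fun i => v.succAbove i ∈ e

lemma coneV_traceV {n : ℕ} {v : Fin (n + 1)} {e : Finset (Fin (n + 1))} (h : v ∈ e) :
    coneV v (traceV v e) = e := by
  ext x
  rw [coneV, mem_insert, Finset.mem_map]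
  constructor
  · rintro (rfl | ⟨i, hi, rfl⟩)
    · exact h
    · exact (mem_filter.1 hi).2
  · intro hx
    by_cases hxv : x = v
    · exact Or.inl hxv
    · obtain ⟨i, rfl⟩ := Fin.exists_succAbove_eq hxv
      exact Or.inr ⟨i, mem_filter.2 ⟨mem_univ _, hx⟩, rfl⟩

open Classical in
/-- the link of `v` -/
noncomputable def linkV {n : ℕ} (F : Finset (Finset (Fin (n + 1)))) (v : Fin (n + 1)) :
    Finset (Finset (Fin n)) :=
  univ.filter fun e => coneV v e ∈ F

lemma mem_linkV {n : ℕ} {F : Finset (Finset (Fin (n + 1)))} {v : Fin (n + 1)} {e : Finset (Fin n)} :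
    e ∈ linkV F v ↔ coneV v e ∈ F := by
  simp [linkV]

lemma good_linkV {r k n : ℕ} {F : Finset (Finset (Fin (n + 1)))} (hF : Good r (k + 1) F)
    (v : Fin (n + 1)) : Good r k (linkV F v) := by
  classical
  refine ⟨fun e he => ?_, fun T hT => ?_⟩
  · have h := hF.1 _ (mem_linkV.1 he)
    rw [card_coneV] at h
    omega
  · have h1 := hF.2 (coneV v T) (by rw [card_coneV, hT])
    refine le_trans ?_ h1
    refine card_le_card_of_injOn (coneV v) ?_ ?_
    · intro e he
      simp only [coe_filter, Set.mem_ofPred_eq] at he ⊢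
      exact ⟨mem_linkV.1 he.1, coneV_subset he.2⟩
    · intro e _ e' _ h
      exact coneV_inj h

lemma card_star_le {n : ℕ} (F : Finset (Finset (Fin (n + 1)))) (v : Fin (n + 1)) :
    (F.filter fun e => v ∈ e).card ≤ (linkV F v).card := by
  classical
  refine card_le_card_of_injOn (traceV v) ?_ ?_
  · intro e he
    simp only [coe_filter, Set.mem_ofPred_eq] at he
    rw [mem_coe, mem_linkV, coneV_traceV he.2]
    exact he.1
  · intro e he e' he' h
    simp only [coe_filter, Set.mem_ofPred_eq] at he he'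
    rw [← coneV_traceV he.2, ← coneV_traceV he'.2, h]

lemma sum_star {n : ℕ} (F : Finset (Finset (Fin (n + 1)))) :
    ∑ v : Fin (n + 1), (F.filter fun e => v ∈ e).card = ∑ e ∈ F, e.card := by
  simp only [card_filter]
  rw [sum_comm]
  refine sum_congr rfl fun e _ => ?_
  rw [← card_filter]
  congr 1
  ext x
  simp

theorem ex_link (r k n : ℕ) : (k + 1) * ex r (k + 1) (n + 1) ≤ (n + 1) * ex r k n := by
  obtain ⟨F, hF, hc⟩ := exists_ex r (k + 1) (n + 1)
  have h1 : ∑ e ∈ F, e.card = (k + 1) * F.card := by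
    rw [sum_congr rfl fun e he => hF.1 e he, sum_const, smul_eq_mul, mul_comm]
  rw [← hc, ← h1, ← sum_star]
  have h2 : ∀ v ∈ (univ : Finset (Fin (n + 1))),
      (F.filter fun e => v ∈ e).card ≤ ex r k n := by
    intro v _
    have h3 := card_le_ex (good_linkV hF v)
    rw [Fintype.card_fin] at h3
    exact (card_star_le F v).trans h3
  have h4 := sum_le_card_nsmul univ _ _ h2
  rw [card_univ, Fintype.card_fin, smul_eq_mul] at h4
  exact h4

theorem td_anti (r : ℕ) : Antitone (td r) := by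
  refine antitone_nat_of_succ_le fun k => ?_
  have h1 : Tendsto (fun n : ℕ => (ex r (k + 1) (n + 1) : ℝ) / ((n + 1).choose (k + 1) : ℝ)) atTop
      (𝓝 (td r (k + 1))) :=
    (tendsto_td r (k + 1)).comp (tendsto_add_atTop_nat 1)
  refine le_of_tendsto_of_tendsto h1 (tendsto_td r k) ?_
  filter_upwards [eventually_ge_atTop k] with n hn
  have hc1 : (0 : ℝ) < ((n + 1).choose (k + 1) : ℝ) := by
    exact_mod_cast Nat.choose_pos (by omega)
  have hc2 : (0 : ℝ) < (n.choose k : ℝ) := by
    exact_mod_cast Nat.choose_pos hn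
  rw [div_le_div_iff₀ hc1 hc2]
  have h2 : ((k : ℝ) + 1) * (ex r (k + 1) (n + 1) : ℝ) ≤ ((n : ℝ) + 1) * (ex r k n : ℝ) := by
    exact_mod_cast ex_link r k n
  have h3 : ((n : ℝ) + 1) * (n.choose k : ℝ) = ((n + 1).choose (k + 1) : ℝ) * ((k : ℝ) + 1) := by
    exact_mod_cast Nat.add_one_mul_choose_eq n k
  have hk : (0 : ℝ) < (k : ℝ) + 1 := by positivity
  have h4 : ((k : ℝ) + 1) * ((ex r (k + 1) (n + 1) : ℝ) * (n.choose k : ℝ)) ≤
      ((k : ℝ) + 1) * ((ex r k n : ℝ) * ((n + 1).choose (k + 1) : ℝ)) := by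
    calc ((k : ℝ) + 1) * ((ex r (k + 1) (n + 1) : ℝ) * (n.choose k : ℝ))
        = (((k : ℝ) + 1) * (ex r (k + 1) (n + 1) : ℝ)) * (n.choose k : ℝ) := by ring
      _ ≤ (((n : ℝ) + 1) * (ex r k n : ℝ)) * (n.choose k : ℝ) :=
          mul_le_mul_of_nonneg_right h2 hc2.le
      _ = (ex r k n : ℝ) * (((n : ℝ) + 1) * (n.choose k : ℝ)) := by ring
      _ = _ := by rw [h3]; ring
  exact le_of_mul_le_mul_left h4 hk

end Pool.Agent.Helper26.TD
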