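import Pool.Agent.Helper26.TD.Perm
import Pool.Agent.Helper26.TD.Link

/-!
# TD-6 (MP_277c78_nt): the lower bound
-/

set_option autoImplicit false

namespace Pool.Agent.Helper26.TD

open Finset Filter Topology
open Pool.Agent.Helper16.UB (Admissible M ll)
open Pool.Agent.Helper34.RB (Bdd le_M tail)
open Pool.Agent.Helper81.RU (SP adm2 weight_ge2)

theorem lower_half {r : ℕ} (hr : 1 ≤ r) {ε : ℝ} (hε : 0 < ε) (hε1 : ε < 1) :
    ∀ᶠ N : ℕ in atTop, (1 - ε) * td r ⌈(1 + ε) * Real.log (Real.log N)⌉₊ * Real.log N ≤ M r N := by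
  classical
  -- `δ` and `D`
  obtain ⟨δ, hδ⟩ : ∃ δ : ℝ, δ = ε / 3 := ⟨_, rfl⟩
  have hδ0 : 0 < δ := by rw [hδ]; linarith
  obtain ⟨D, hD⟩ := exists_nat_gt (1 / δ)
  have hD0 : (0 : ℝ) < D := lt_trans (by positivity) hD
  have hD1 : 1 ≤ D := by exact_mod_cast hD0
  have hDδ : 1 / (D : ℝ) ≤ δ := by
    rw [div_le_iff₀ hD0]
    rw [div_lt_iff₀ hδ0] at hD
    linarith
  have hll := Helper16.UB.tendsto_ll
  filter_upwards [hll.eventually_ge_atTop (1 : ℝ),
    hll.eventually_ge_atTop ((D : ℝ) / δ), tail hδ0 hδ0] with N hl1 hlD ht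
  set l := Real.log (Real.log N) with hl
  have hll' : ll N = l := rfl
  rw [hll'] at hl1 hlD
  set k := ⌊(1 + δ) * l⌋₊ with hk
  have hlpos : (0 : ℝ) < l := by linarith
  have hk0 : (k : ℝ) ≤ (1 + δ) * l := Nat.floor_le (by positivity)
  set K := ⌈(1 + ε) * l⌉₊ with hK
  have hkK : k + D ≤ K := by
    have h1 : (D : ℝ) ≤ δ * l := by
      rw [div_le_iff₀ hδ0] at hlD
      linarith
    have h2 : ((k + D : ℕ) : ℝ) ≤ (1 + ε) * l := by
      push_cast
      have h3 : (1 + ε) * l = (1 + δ) * l + δ * l + δ * l := by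
        rw [hδ]
        ring
      have h4 : 0 ≤ δ * l := by positivity
      linarith
    exact_mod_cast h2.trans (Nat.le_ceil _)
  set I := (Icc 1 N).filter (fun a => (SP N a).card ≤ k + D) with hI
  obtain ⟨F, hF1, hF2⟩ := exists_fam r N I (SP N) (fun a => 1 / (a : ℝ)) (fun a _ => by positivity)
  have hW := weight_ge2 (N := N) (k := k) hD1 ht
  have hadm : Admissible r N (I.filter fun a => F (SP N a)) := by
    refine adm2 hr F hF1 _ fun a ha => ?_
    rw [mem_filter] at ha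
    have h1 := mem_filter.mp ha.1
    have h2 := mem_Icc.mp h1.1
    exact ⟨h2.1, h2.2, ha.2⟩
  refine le_trans ?_ (le_M hadm)
  refine le_trans ?_ hF2
  have hL0 : 0 ≤ Real.log N := Real.log_natCast_nonneg N
  have ht0 : 0 ≤ td r K := td_nonneg r K
  have h1 : td r K * ∑ a ∈ I, 1 / (a : ℝ) ≤ ∑ a ∈ I, td r (SP N a).card * (1 / (a : ℝ)) := by
    rw [mul_sum]
    refine sum_le_sum fun a ha => ?_
    have h2 : (SP N a).card ≤ K := ((mem_filter.mp ha).2).trans hkK
    exact mul_le_mul_of_nonneg_right (td_anti r h2) (by positivity)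
  refine le_trans ?_ h1
  have h3 : (1 - ε) * Real.log N ≤ ∑ a ∈ I, 1 / (a : ℝ) := by
    refine le_trans ?_ hW
    apply mul_le_mul_of_nonneg_right _ hL0
    have h4 : 1 - ε = 1 - δ - δ - δ := by
      rw [hδ]
      ring
    rw [h4]
    linarith
  calc (1 - ε) * td r K * Real.log N = td r K * ((1 - ε) * Real.log N) := by ring
    _ ≤ td r K * ∑ a ∈ I, 1 / (a : ℝ) := mul_le_mul_of_nonneg_left h3 ht0

end Pool.Agent.Helper26.TD
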