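import Pool.Agent.Helper26.TD.Turan

/-!
# TD-5 (MP_277c78_nt): a family from random permutations of the Turán families
-/

set_option autoImplicit false

namespace Pool.Agent.Helper26.TD

open Finset Filter Topology
open Pool.Agent.Helper16.UB (Admissible M)
open Pool.Agent.Helper34.RB (Bdd)

/-- a permutation taking a finite set to another one with the same number of elements -/
theorem exists_perm {X : Type} [Fintype X] [DecidableEq X] {E E' : Finset X}
    (h : E.card = E'.card) : ∃ τ : Equiv.Perm X, E.map τ.toEmbedding = E' := by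
  classical
  refine ⟨(Finset.equivOfCardEq h).extendSubtype, ?_⟩
  apply Finset.eq_of_subset_of_card_le
  · intro y hy
    rw [Finset.mem_map] at hy
    obtain ⟨x, hx, rfl⟩ := hy
    exact Equiv.extendSubtype_mem _ x hx
  · rw [Finset.card_map, h]

open Classical in
/-- the number of permutations taking a `k`-set into the family -/
theorem count_perm {n k : ℕ} (F : Finset (Finset (Fin n)))
    (hF : ∀ e ∈ F, e.card = k) (E : Finset (Fin n)) (hE : E.card = k) :
    n.choose k *
      (univ.filter fun s : Equiv.Perm (Fin n) => E.map s.toEmbedding ∈ F).card =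
        Fintype.card (Equiv.Perm (Fin n)) * F.card := by
  have h1 : ∀ E' ∈ powersetCard k (univ : Finset (Fin n)),
      (univ.filter fun s : Equiv.Perm (Fin n) => E'.map s.toEmbedding ∈ F).card =
        (univ.filter fun s : Equiv.Perm (Fin n) => E.map s.toEmbedding ∈ F).card := by
    intro E' hE'
    rw [mem_powersetCard] at hE'
    obtain ⟨τ, hτ⟩ := exists_perm (hE.trans hE'.2.symm)
    refine Finset.card_bij (fun s _ => τ.trans s) ?_ ?_ ?_
    · intro s hs
      rw [mem_filter] at hs ⊢
      refine ⟨mem_univ _, ?_⟩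
      have e : E.map (τ.trans s).toEmbedding = E'.map s.toEmbedding := by
        rw [← hτ, Finset.map_map]
        rfl
      rw [e]
      exact hs.2
    · intro s _ s' _ h
      have h2 : τ.symm.trans (τ.trans s) = τ.symm.trans (τ.trans s') := by
        rw [h]
      simpa [← Equiv.trans_assoc] using h2
    · intro s hs
      rw [mem_filter] at hs
      refine ⟨τ.symm.trans s, ?_, ?_⟩
      · rw [mem_filter]
        refine ⟨mem_univ _, ?_⟩
        have e : E'.map (τ.symm.trans s).toEmbedding = E.map s.toEmbedding := by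
          rw [← hτ, Finset.map_map]
          congr 1
          ext x
          simp
        rw [e]
        exact hs.2
      · ext x
        simp
  have h2 : ∑ E' ∈ powersetCard k (univ : Finset (Fin n)),
      (univ.filter fun s : Equiv.Perm (Fin n) => E'.map s.toEmbedding ∈ F).card =
        n.choose k *
          (univ.filter fun s : Equiv.Perm (Fin n) => E.map s.toEmbedding ∈ F).card := by
    rw [Finset.sum_congr rfl h1, Finset.sum_const, card_powersetCard, smul_eq_mul, card_univ,
      Fintype.card_fin]
  rw [← h2]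
  have h3 : ∀ s : Equiv.Perm (Fin n),
      ((powersetCard k (univ : Finset (Fin n))).filter fun E' => E'.map s.toEmbedding ∈ F).card =
        F.card := by
    intro s
    refine Finset.card_bij (fun E' _ => E'.map s.toEmbedding) ?_ ?_ ?_
    · intro E' hE'
      rw [mem_filter] at hE'
      exact hE'.2
    · intro E1 _ E2 _ h
      exact Finset.map_injective _ h
    · intro e he
      refine ⟨e.map s.symm.toEmbedding, ?_, ?_⟩
      · have e1 : (e.map s.symm.toEmbedding).map s.toEmbedding = e := by
          rw [Finset.map_map]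
          ext x
          simp
        rw [mem_filter, mem_powersetCard, Finset.card_map, e1]
        exact ⟨⟨subset_univ _, hF e he⟩, he⟩
      · rw [Finset.map_map]
        ext x
        simp
  have h4 : ∀ E' ∈ powersetCard k (univ : Finset (Fin n)),
      (univ.filter fun s : Equiv.Perm (Fin n) => E'.map s.toEmbedding ∈ F).card =
        ∑ s : Equiv.Perm (Fin n), if E'.map s.toEmbedding ∈ F then 1 else 0 := by
    intro E' _
    rw [Finset.card_filter]
  rw [Finset.sum_congr rfl h4, Finset.sum_comm]
  have h5 : ∀ s ∈ (univ : Finset (Equiv.Perm (Fin n))), (∑ E' ∈ powersetCard k (univ : Finset (Fin n)),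
      if E'.map s.toEmbedding ∈ F then 1 else 0) = F.card := by
    intro s _
    rw [← h3 s, Finset.card_filter]
  rw [Finset.sum_congr rfl h5, Finset.sum_const, smul_eq_mul, card_univ]

theorem arith {C c P e : ℕ} {t : ℝ} (hC : (0 : ℝ) < (C : ℝ)) (h1 : C * c = P * e)
    (ht : t ≤ (e : ℝ) / (C : ℝ)) : (P : ℝ) * t ≤ (c : ℝ) := by
  have h2 : (C : ℝ) * (c : ℝ) = (P : ℝ) * (e : ℝ) := by exact_mod_cast h1
  have h3 : (c : ℝ) = (P : ℝ) * ((e : ℝ) / (C : ℝ)) := by
    rw [← mul_div_assoc, ← h2, mul_comm, mul_div_assoc, div_self hC.ne', mul_one]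
  rw [h3]
  exact mul_le_mul_of_nonneg_left ht (Nat.cast_nonneg _)

open Classical in
/-- one layer -/
theorem exists_layer (r k N : ℕ) (J : Finset ℕ) (S : ℕ → Finset (Fin (N + 1))) (w : ℕ → ℝ)
    (hS : ∀ i ∈ J, (S i).card = k) (hw : ∀ i ∈ J, 0 ≤ w i) (F : Finset (Finset (Fin (N + 1))))
    (hF : Good r k F) (hc : F.card = ex r k (N + 1)) :
    ∃ s : Equiv.Perm (Fin (N + 1)), ∑ i ∈ J, td r k * w i ≤
      ∑ i ∈ J, if (S i).map s.toEmbedding ∈ F then w i else 0 := by
  rcases J.eq_empty_or_nonempty with hJ | ⟨i0, hi0⟩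
  · refine ⟨1, ?_⟩
    rw [hJ, Finset.sum_empty, Finset.sum_empty]
  have hk : k ≤ N + 1 := by
    rw [← hS i0 hi0]
    simpa using Finset.card_le_univ (S i0)
  have hch : (0 : ℝ) < ((N + 1).choose k : ℝ) := by
    exact_mod_cast Nat.choose_pos hk
  have htd := td_le (r := r) hk
  have hexist : ∃ s ∈ (univ : Finset (Equiv.Perm (Fin (N + 1)))), ∑ i ∈ J, td r k * w i ≤
      ∑ i ∈ J, if (S i).map s.toEmbedding ∈ F then w i else 0 := by
    apply Finset.exists_le_of_sum_le univ_nonempty
    rw [Finset.sum_comm (s := (univ : Finset (Equiv.Perm (Fin (N + 1)))))]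
    rw [Finset.sum_comm (s := (univ : Finset (Equiv.Perm (Fin (N + 1)))))]
    apply Finset.sum_le_sum
    intro i hi
    rw [Finset.sum_const, nsmul_eq_mul, card_univ, ← Finset.sum_filter, Finset.sum_const,
      nsmul_eq_mul, ← mul_assoc]
    apply mul_le_mul_of_nonneg_right _ (hw i hi)
    have h1 := count_perm F hF.1 (S i) (hS i hi)
    rw [hc] at h1
    exact arith hch h1 htd
  obtain ⟨s, _, hs⟩ := hexist
  exact ⟨s, hs⟩

open Classical in
theorem exists_fam (r N : ℕ) (I : Finset ℕ) (S : ℕ → Finset (Fin (N + 1))) (w : ℕ → ℝ)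
    (hw : ∀ i ∈ I, 0 ≤ w i) :
    ∃ F : Finset (Fin (N + 1)) → Prop, Bdd r F ∧
      ∑ i ∈ I, td r (S i).card * w i ≤ ∑ i ∈ I.filter (fun i => F (S i)), w i := by
  choose Fk hFk hck using fun k => exists_ex r k (N + 1)
  have hlay : ∀ k : ℕ, ∃ s : Equiv.Perm (Fin (N + 1)),
      ∑ i ∈ I.filter (fun i => (S i).card = k), td r k * w i ≤
        ∑ i ∈ I.filter (fun i => (S i).card = k),
          if (S i).map s.toEmbedding ∈ Fk k then w i else 0 := by
    intro k
    apply exists_layer r k N _ S w
    · intro i hi
      exact (mem_filter.1 hi).2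
    · intro i hi
      exact hw i (mem_filter.1 hi).1
    · exact hFk k
    · exact hck k
  choose s hs using hlay
  refine ⟨fun E => E.map (s E.card).toEmbedding ∈ Fk E.card, ?_, ?_⟩
  · intro T
    rcases T.eq_empty_or_nonempty with hT | hT
    · subst hT
      simp
    obtain ⟨k, hk⟩ : ∃ k, T.card = k + 1 :=
      ⟨T.card - 1, by have := hT.card_pos; omega⟩
    refine le_trans ?_ ((hFk k).2 (T.map (s k).toEmbedding) (by rw [Finset.card_map, hk]))
    apply Finset.card_le_card_of_injOn (fun x => (T.erase x).map (s k).toEmbedding)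
    · intro x hx
      simp only [Finset.coe_filter, Set.mem_ofPred_eq] at hx
      have h1 : (T.erase x).card = k := by
        rw [Finset.card_erase_of_mem hx.1, hk]
        rfl
      have h2 := hx.2
      simp only [h1] at h2
      simp only [Finset.coe_filter, Set.mem_ofPred_eq]
      exact ⟨h2, Finset.map_subset_map.2 (Finset.erase_subset _ _)⟩
    · intro x hx y hy hxy
      simp only [Finset.coe_filter, Set.mem_ofPred_eq] at hx hy
      exact Finset.erase_injOn T hx.1 hy.1 (Finset.map_injective _ hxy)
  · have hm : ∀ i ∈ I, (S i).card ∈ range (N + 2) := by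
      intro i _
      rw [mem_range]
      have := Finset.card_le_univ (S i)
      rw [Fintype.card_fin] at this
      omega
    rw [← Finset.sum_fiberwise_of_maps_to hm, Finset.sum_filter,
      ← Finset.sum_fiberwise_of_maps_to hm]
    apply Finset.sum_le_sum
    intro k _
    refine le_trans (le_of_eq ?_) ((hs k).trans (le_of_eq ?_))
    · apply Finset.sum_congr rfl
      intro i hi
      rw [(mem_filter.1 hi).2]
    · apply Finset.sum_congr rfl
      intro i hi
      have h1 := (mem_filter.1 hi).2
      simp only [h1]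

end Pool.Agent.Helper26.TD
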