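import Pool.Agent.Helper26.TD.Defs

/-!
# TD-8b (MP_277c78_nt): put the proofs into this file (keep the statements and the namespace)

`(c, s) ↦ c * ∏ p ∈ s, p` is injective on `c` prime to `P`, `s ⊆ P` (`s = P.filter (· ∣ n)`), and for `s.card ≤ K`
the value is at most `c * y ^ K ≤ N`; then `Helper16.UB.harm_le`.
-/

set_option autoImplicit false

namespace Pool.Agent.Helper26.TD

open Finset Filter Topology
open Pool.Agent.Helper16.UB (Admissible M)

private theorem dvd_mul_prod {P : Finset ℕ} (hP : ∀ p ∈ P, p.Prime) {c : ℕ}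
    (hc : ∀ p ∈ P, ¬ p ∣ c) {s : Finset ℕ} (hs : s ⊆ P) {p : ℕ} (hp : p ∈ P) :
    p ∣ c * ∏ q ∈ s, q ↔ p ∈ s := by
  have hpp := hP p hp
  rw [hpp.dvd_mul, or_iff_right (hc p hp)]
  constructor
  · intro h
    obtain ⟨q, hq, hpq⟩ := (hpp.prime.dvd_finsetProd_iff _).1 h
    have := (Nat.prime_dvd_prime_iff_eq hpp (hP q (hs hq))).1 hpq
    rw [this]
    exact hq
  · intro h
    exact dvd_prod_of_mem _ h

open Classical in
theorem inj_part {N z y K : ℕ} :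
    (∑ c ∈ (Icc 1 N).filter (fun c => c * y ^ K ≤ N ∧ ∀ p ∈ PP z y, ¬ p ∣ c), 1 / (c : ℝ)) *
      DD (PP z y) K ≤ 1 + Real.log N := by
  have hPP : ∀ p ∈ PP z y, p.Prime ∧ p ≤ y := by
    intro p hp
    rw [PP, mem_filter, mem_Icc] at hp
    exact ⟨hp.2.1, hp.1.2⟩
  refine le_trans ?_ (Pool.Agent.Helper16.UB.harm_le N)
  unfold DD
  rw [sum_mul_sum, ← sum_product']
  set C := (Icc 1 N).filter (fun c => c * y ^ K ≤ N ∧ ∀ p ∈ PP z y, ¬ p ∣ c) with hC
  set Q := (PP z y).powerset.filter (fun s => s.card ≤ K) with hQ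
  have hinj : Set.InjOn (fun x : ℕ × Finset ℕ => x.1 * ∏ p ∈ x.2, p)
      ((C ×ˢ Q : Finset (ℕ × Finset ℕ)) : Set (ℕ × Finset ℕ)) := by
    rintro ⟨c, s⟩ h ⟨c', s'⟩ h' he
    rw [mem_coe, mem_product, hC, hQ, mem_filter, mem_filter, mem_powerset] at h h'
    dsimp only at h h' he
    have hss : s = s' := by
      ext p
      constructor
      · intro hp
        have h1 := (dvd_mul_prod (fun p hp => (hPP p hp).1) h.1.2.2 h.2.1 (h.2.1 hp)).2 hp
        rw [he] at h1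
        exact (dvd_mul_prod (fun p hp => (hPP p hp).1) h'.1.2.2 h'.2.1 (h.2.1 hp)).1 h1
      · intro hp
        have h1 := (dvd_mul_prod (fun p hp => (hPP p hp).1) h'.1.2.2 h'.2.1 (h'.2.1 hp)).2 hp
        rw [← he] at h1
        exact (dvd_mul_prod (fun p hp => (hPP p hp).1) h.1.2.2 h.2.1 (h'.2.1 hp)).1 h1
    subst hss
    have hpos : 0 < ∏ p ∈ s, p := prod_pos fun p hp => (hPP p (h.2.1 hp)).1.pos
    have := Nat.eq_of_mul_eq_mul_right hpos he
    rw [this]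
  have h1 : ∑ x ∈ C ×ˢ Q, 1 / (x.1 : ℝ) * ∏ p ∈ x.2, 1 / (p : ℝ) =
      ∑ n ∈ (C ×ˢ Q).image (fun x : ℕ × Finset ℕ => x.1 * ∏ p ∈ x.2, p), 1 / (n : ℝ) := by
    rw [sum_image hinj]
    refine sum_congr rfl fun x _ => ?_
    push_cast
    rw [prod_div_distrib, prod_const_one, div_mul_div_comm, one_mul]
  rw [h1]
  refine sum_le_sum_of_subset_of_nonneg ?_ fun n _ _ => by positivity
  intro n hn
  rw [mem_image] at hn
  obtain ⟨⟨c, s⟩, hx, rfl⟩ := hn
  rw [mem_product, hC, hQ, mem_filter, mem_filter, mem_powerset, mem_Icc] at hx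
  dsimp only at hx ⊢
  obtain ⟨⟨⟨hc1, hc2⟩, hcy, -⟩, hs, hsK⟩ := hx
  have hpos : 0 < ∏ p ∈ s, p := prod_pos fun p hp => (hPP p (hs hp)).1.pos
  rw [mem_Icc]
  refine ⟨Nat.one_le_iff_ne_zero.2 (Nat.mul_ne_zero (by omega) hpos.ne'), ?_⟩
  rcases Nat.eq_zero_or_pos y with hy | hy
  · have hP0 : PP z y = ∅ := by
      rw [PP, hy]
      rfl
    rw [hP0, subset_empty] at hs
    rw [hs, prod_empty, mul_one]
    exact hc2
  refine le_trans (Nat.mul_le_mul_left c ?_) hcy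
  calc ∏ p ∈ s, p ≤ ∏ _p ∈ s, y := prod_le_prod' fun p hp => (hPP p (hs hp)).2
    _ = y ^ s.card := by rw [prod_const]
    _ ≤ y ^ K := Nat.pow_le_pow_right hy hsK

end Pool.Agent.Helper26.TD
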