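import Pool.Agent.Helper26.TD.Defs

/-!
# TD-8a (MP_277c78_nt): the part of `A` divisible by the square of a large prime

`A' = {m ∈ [1, N] : p ^ 2 * m ∈ A}` is admissible (`R A' m ≤ R A (p ^ 2 * m)` by `(q, a) ↦ (q, p ^ 2 * a)`),
so the part of `A` divisible by `p ^ 2` has reciprocal sum at most `(1 / p ^ 2) * M r N`
(`Helper16.UB.reindex`, `Helper34.RB.le_M`); `∑_{p > z} 1 / p ^ 2 ≤ 1 / z` (`sum_Ioc_inv_sq_le_sub`).
-/

set_option autoImplicit false

namespace Pool.Agent.Helper26.TD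

open Finset Filter Topology
open Pool.Agent.Helper16.UB (Admissible M)

/-- the set of the cofactors of `d` is admissible -/
private theorem sq_adm {r N d : ℕ} (hd : 0 < d) {A : Finset ℕ} (hA : Admissible r N A) :
    Admissible r N ((Icc 1 N).filter fun m => d * m ∈ A) := by
  classical
  refine ⟨filter_subset _ _, fun m hm => ?_⟩
  refine le_trans ?_ (hA.2 (d * m) (Nat.mul_pos hd hm))
  unfold Helper16.UB.R
  have hfin : Set.Finite {x : ℕ × ℕ | x.1.Prime ∧ x.2 ∈ A ∧ d * m = x.1 * x.2} := by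
    have hsub : {x : ℕ × ℕ | x.1.Prime ∧ x.2 ∈ A ∧ d * m = x.1 * x.2} ⊆
        ((Icc 0 (d * m)) ×ˢ A : Finset (ℕ × ℕ)) := by
      rintro ⟨p, b⟩ ⟨h1, h2, h3⟩
      simp only at h1 h2 h3
      simp only [coe_product, Set.mem_prod, mem_coe, mem_Icc]
      exact ⟨⟨Nat.zero_le _, Nat.le_of_dvd (Nat.mul_pos hd hm) ⟨b, h3⟩⟩, h2⟩
    exact (Finset.finite_toSet _).subset hsub
  refine Set.ncard_le_ncard_of_injOn (fun x : ℕ × ℕ => (x.1, d * x.2)) ?_ ?_ hfin
  · rintro ⟨p, b⟩ ⟨h1, h2, h3⟩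
    simp only [mem_filter] at h1 h2 h3
    refine ⟨h1, h2.2, ?_⟩
    simp only
    rw [h3]
    ring
  · rintro ⟨p, b⟩ _ ⟨p', b'⟩ _ h
    simp only [Prod.mk.injEq] at h
    exact Prod.ext h.1 (Nat.eq_of_mul_eq_mul_left hd h.2)

/-- the part of `A` divisible by `d` -/
private theorem sq_one {r N d : ℕ} (hd : 0 < d) {A : Finset ℕ} (hA : Admissible r N A) :
    ∑ n ∈ A.filter (fun n => d ∣ n), 1 / (n : ℝ) ≤ 1 / (d : ℝ) * M r N := by
  classical
  have h1 := Helper16.UB.reindex hA.1 hd (fun b => 1 / (d : ℝ) * (1 / (b : ℝ)))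
  have h2 := Helper34.RB.le_M (sq_adm hd hA)
  have h3 : ∑ n ∈ A.filter (fun n => d ∣ n), 1 / (n : ℝ) =
      ∑ a ∈ A, if d ∣ a then 1 / (d : ℝ) * (1 / ((a / d : ℕ) : ℝ)) else 0 := by
    rw [← sum_filter]
    refine sum_congr rfl fun n hn => ?_
    obtain ⟨b, rfl⟩ := (mem_filter.mp hn).2
    rw [Nat.mul_div_cancel_left b hd]
    push_cast
    rw [one_div_mul_one_div]
  rw [h3, ← h1, ← sum_filter, ← mul_sum]
  exact mul_le_mul_of_nonneg_left h2 (by positivity)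

open Classical in
theorem sq_part {r N z y : ℕ} (hz : 1 ≤ z) {A : Finset ℕ} (hA : Admissible r N A) :
    ∑ n ∈ A.filter (fun n => ∃ p ∈ PP z y, p ^ 2 ∣ n), 1 / (n : ℝ) ≤ M r N / z := by
  have hM : 0 ≤ M r N :=
    le_trans (sum_nonneg fun n _ => by positivity) (Helper34.RB.le_M hA)
  have hz0 : (0 : ℝ) < z := by exact_mod_cast hz
  -- the union bound
  have h1 : ∑ n ∈ A.filter (fun n => ∃ p ∈ PP z y, p ^ 2 ∣ n), 1 / (n : ℝ) ≤
      ∑ p ∈ PP z y, ∑ n ∈ A.filter (fun n => p ^ 2 ∣ n), 1 / (n : ℝ) := by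
    calc ∑ n ∈ A.filter (fun n => ∃ p ∈ PP z y, p ^ 2 ∣ n), 1 / (n : ℝ) ≤
          ∑ n ∈ A.filter (fun n => ∃ p ∈ PP z y, p ^ 2 ∣ n),
            ∑ p ∈ PP z y, (if p ^ 2 ∣ n then 1 / (n : ℝ) else 0) := by
          refine sum_le_sum fun n hn => ?_
          obtain ⟨-, p, hp, h4⟩ := mem_filter.mp hn
          have h5 := single_le_sum (s := PP z y) (f := fun p => if p ^ 2 ∣ n then 1 / (n : ℝ) else 0)
            (fun q _ => by split_ifs <;> positivity) hp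
          simp only [if_pos h4] at h5
          exact h5
      _ ≤ ∑ n ∈ A, ∑ p ∈ PP z y, (if p ^ 2 ∣ n then 1 / (n : ℝ) else 0) := by
          refine sum_le_sum_of_subset_of_nonneg (filter_subset _ _) fun n _ _ => ?_
          exact sum_nonneg fun p _ => by split_ifs <;> positivity
      _ = ∑ p ∈ PP z y, ∑ n ∈ A.filter (fun n => p ^ 2 ∣ n), 1 / (n : ℝ) := by
          rw [sum_comm]
          refine sum_congr rfl fun p _ => ?_
          rw [sum_filter]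
  refine h1.trans ?_
  have h2 : ∑ p ∈ PP z y, ∑ n ∈ A.filter (fun n => p ^ 2 ∣ n), 1 / (n : ℝ) ≤
      ∑ p ∈ PP z y, ((p : ℝ) ^ 2)⁻¹ * M r N := by
    refine sum_le_sum fun p hp => ?_
    have hp1 : p.Prime := (mem_filter.mp hp).2.1
    have h3 := sq_one (pow_pos hp1.pos 2) hA
    push_cast at h3
    rwa [one_div] at h3
  refine h2.trans ?_
  rw [← sum_mul]
  have h3 : ∑ p ∈ PP z y, ((p : ℝ) ^ 2)⁻¹ ≤ (z : ℝ)⁻¹ := by
    rcases le_or_gt z y with hzy | hzy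
    · calc ∑ p ∈ PP z y, ((p : ℝ) ^ 2)⁻¹ ≤ ∑ p ∈ Ioc z y, ((p : ℝ) ^ 2)⁻¹ := by
            refine sum_le_sum_of_subset_of_nonneg ?_ fun n _ _ => by positivity
            intro p hp
            obtain ⟨h4, -, h5⟩ := mem_filter.mp hp
            exact mem_Ioc.mpr ⟨h5, (mem_Icc.mp h4).2⟩
        _ ≤ (z : ℝ)⁻¹ - (y : ℝ)⁻¹ := sum_Ioc_inv_sq_le_sub (by omega) hzy
        _ ≤ (z : ℝ)⁻¹ := by
            have : (0 : ℝ) ≤ (y : ℝ)⁻¹ := by positivity
            linarith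
    · have h4 : PP z y = ∅ := by
        rw [Finset.eq_empty_iff_forall_notMem]
        intro p hp
        obtain ⟨h4, -, h5⟩ := mem_filter.mp hp
        have := (mem_Icc.mp h4).2
        omega
      rw [h4, sum_empty]
      positivity
  calc (∑ p ∈ PP z y, ((p : ℝ) ^ 2)⁻¹) * M r N ≤ (z : ℝ)⁻¹ * M r N :=
        mul_le_mul_of_nonneg_right h3 hM
    _ = M r N / z := by rw [div_eq_inv_mul]

end Pool.Agent.Helper26.TD
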