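import Pool.Agent.Helper26.TD.SplitAux
import Pool.Agent.Helper26.TD.SplitSq
import Pool.Agent.Helper26.TD.SplitInj

/-!
# TD-8 (MP_277c78_nt): one inequality for `M r N`
-/

set_option autoImplicit false

namespace Pool.Agent.Helper26.TD

open Finset Filter Topology
open Pool.Agent.Helper16.UB (Admissible M)
open Pool.Agent.Helper34.RB (Bdd)

lemma PP_prime {z y p : ℕ} (hp : p ∈ PP z y) : p.Prime := (mem_filter.1 hp).2.1

lemma PP_le {z y p : ℕ} (hp : p ∈ PP z y) : p ≤ y := (mem_Icc.1 (mem_filter.1 hp).1).2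

lemma PP_gt {z y p : ℕ} (hp : p ∈ PP z y) : z < p := (mem_filter.1 hp).2.2

lemma one_le_DD (P : Finset ℕ) (K : ℕ) : 1 ≤ DD P K := by
  have h : (fun s : Finset ℕ => ∏ p ∈ s, 1 / (p : ℝ)) ∅ ≤ DD P K :=
    single_le_sum (f := fun s : Finset ℕ => ∏ p ∈ s, 1 / (p : ℝ))
      (fun s _ => prod_nonneg fun p _ => by positivity)
      (mem_filter.2 ⟨mem_powerset.2 (empty_subset _), by simp⟩)
  simpa using h

lemma LL_nonneg (P : Finset ℕ) : 0 ≤ LL P := sum_nonneg fun p _ => by positivity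

open Classical in
theorem split_A {r N z y K k0 : ℕ} (hr : 2 ≤ r) (hz : 1 ≤ z) (hne : (PP z y).Nonempty)
    {A : Finset ℕ} (hA : Admissible r N A) :
    (∑ n ∈ A, 1 / (n : ℝ)) * DD (PP z y) K ≤
      M r N / z * DD (PP z y) K +
      ((1 + Real.log N) * (td r k0 * Real.exp (LL (PP z y)) +
        ∑ k ∈ range k0, LL (PP z y) ^ k / (k.factorial : ℝ)) +
      (1 + Real.log ((y : ℝ) ^ K)) * DD (PP z y) K) := by
  set P := PP z y with hP
  have hPp : ∀ p ∈ P, p.Prime := fun p hp => PP_prime hp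
  have hD : 1 ≤ DD P K := one_le_DD P K
  have hy : 1 ≤ y := by
    obtain ⟨p, hp⟩ := hne
    exact (hPp p hp).one_lt.le.trans (PP_le hp)
  have hY : 1 ≤ y ^ K := Nat.one_le_pow _ _ hy
  set B := A.filter (fun n => ¬ ∃ p ∈ P, p ^ 2 ∣ n) with hB
  set B1 := B.filter (fun n => ∃ c : ℕ, c ∣ n ∧ (∀ p ∈ P, ¬ p ∣ c) ∧ N < c * y ^ K) with hB1
  set B2 := B.filter (fun n => ¬ ∃ c : ℕ, c ∣ n ∧ (∀ p ∈ P, ¬ p ∣ c) ∧ N < c * y ^ K) with hB2
  have e1 : ∑ n ∈ A, 1 / (n : ℝ) =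
      ∑ n ∈ A.filter (fun n => ∃ p ∈ P, p ^ 2 ∣ n), 1 / (n : ℝ) +
        (∑ n ∈ B1, 1 / (n : ℝ) + ∑ n ∈ B2, 1 / (n : ℝ)) := by
    rw [hB1, hB2, sum_filter_add_sum_filter_not, hB, sum_filter_add_sum_filter_not]
  have h1 : ∑ n ∈ A.filter (fun n => ∃ p ∈ P, p ^ 2 ∣ n), 1 / (n : ℝ) ≤ M r N / z :=
    sq_part hz hA
  have h2 : ∑ n ∈ B1, 1 / (n : ℝ) ≤ 1 + Real.log ((y : ℝ) ^ K) := by
    have := tail_part (N := N) hY
    push_cast at this
    refine le_trans (sum_le_sum_of_subset_of_nonneg ?_ fun i _ _ => by positivity) this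
    intro n hn
    rw [hB1, mem_filter, hB, mem_filter] at hn
    obtain ⟨⟨hnA, _⟩, c, hcn, _, hc⟩ := hn
    have hn1 := hA.1 hnA
    rw [mem_filter]
    refine ⟨hn1, hc.trans_le (Nat.mul_le_mul_right _ (Nat.le_of_dvd ?_ hcn))⟩
    rw [mem_Icc] at hn1
    omega
  have h3 : ∑ n ∈ B2, 1 / (n : ℝ) ≤
      (∑ c ∈ (Icc 1 N).filter (fun c => c * y ^ K ≤ N ∧ ∀ p ∈ P, ¬ p ∣ c), 1 / (c : ℝ)) *
        ∑ k ∈ range (P.card + 1), td r k * LL P ^ k / (k.factorial : ℝ) := by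
    refine rest_part hr hA hPp hne B2 ((filter_subset _ _).trans (filter_subset _ _)) ?_ ?_
    · intro n hn p hp hpn
      rw [hB2, mem_filter, hB, mem_filter] at hn
      exact hn.1.2 ⟨p, hp, hpn⟩
    · intro n hn c hcn hc
      rw [hB2, mem_filter] at hn
      by_contra h
      exact hn.2 ⟨c, hcn, hc, not_le.1 h⟩
  have h4 := B_le (r := r) (n := P.card + 1) (k0 := k0) (LL_nonneg P)
  have h5 : (∑ c ∈ (Icc 1 N).filter (fun c => c * y ^ K ≤ N ∧ ∀ p ∈ P, ¬ p ∣ c), 1 / (c : ℝ)) *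
      DD P K ≤ 1 + Real.log N := inj_part
  have hC0 : 0 ≤ ∑ c ∈ (Icc 1 N).filter (fun c => c * y ^ K ≤ N ∧ ∀ p ∈ P, ¬ p ∣ c), 1 / (c : ℝ) :=
    sum_nonneg fun _ _ => by positivity
  set C := ∑ c ∈ (Icc 1 N).filter (fun c => c * y ^ K ≤ N ∧ ∀ p ∈ P, ¬ p ∣ c), 1 / (c : ℝ)
  set E := td r k0 * Real.exp (LL P) + ∑ k ∈ range k0, LL P ^ k / (k.factorial : ℝ) with hE
  have hE0 : 0 ≤ E := add_nonneg (mul_nonneg (td_nonneg _ _) (Real.exp_pos _).le)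
    (sum_nonneg fun k _ => div_nonneg (pow_nonneg (LL_nonneg P) k) (by positivity))
  have h6 : ∑ n ∈ B2, 1 / (n : ℝ) ≤ C * E := h3.trans (mul_le_mul_of_nonneg_left h4 hC0)
  have hD0 : 0 ≤ DD P K := zero_le_one.trans hD
  have h7 : (∑ n ∈ B2, 1 / (n : ℝ)) * DD P K ≤ (1 + Real.log N) * E := by
    calc (∑ n ∈ B2, 1 / (n : ℝ)) * DD P K ≤ C * E * DD P K :=
          mul_le_mul_of_nonneg_right h6 hD0
      _ = (C * DD P K) * E := by ring
      _ ≤ _ := mul_le_mul_of_nonneg_right h5 hE0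
  rw [e1, add_mul, add_mul]
  have h8 := mul_le_mul_of_nonneg_right h1 hD0
  have h9 := mul_le_mul_of_nonneg_right h2 hD0
  linarith

theorem split {r N z y K k0 : ℕ} (hr : 2 ≤ r) (hz : 1 ≤ z) (hne : (PP z y).Nonempty)
    (hyK : y ^ K ≤ N) :
    M r N * (1 - 1 / (z : ℝ)) * DD (PP z y) K ≤
      (1 + Real.log N) * (td r k0 * Real.exp (LL (PP z y)) +
        ∑ k ∈ range k0, LL (PP z y) ^ k / (k.factorial : ℝ)) +
      (1 + Real.log ((y : ℝ) ^ K)) * DD (PP z y) K := by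
  have hD : 0 < DD (PP z y) K := zero_lt_one.trans_le (one_le_DD _ K)
  set X := (1 + Real.log N) * (td r k0 * Real.exp (LL (PP z y)) +
        ∑ k ∈ range k0, LL (PP z y) ^ k / (k.factorial : ℝ)) +
      (1 + Real.log ((y : ℝ) ^ K)) * DD (PP z y) K with hX
  have h : M r N ≤ (M r N / z * DD (PP z y) K + X) / DD (PP z y) K := by
    refine csSup_le ⟨0, ∅, ⟨by simp, fun m _ => ?_⟩, by simp⟩ ?_
    · have : Pool.Agent.Helper16.UB.R ∅ m = 0 := by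
        simp [Pool.Agent.Helper16.UB.R]
      omega
    · rintro s ⟨A, hA, rfl⟩
      rw [le_div_iff₀ hD]
      exact split_A hr hz hne hA
  rw [le_div_iff₀ hD] at h
  have : M r N * (1 - 1 / (z : ℝ)) * DD (PP z y) K =
      M r N * DD (PP z y) K - M r N / z * DD (PP z y) K := by ring
  rw [this]
  linarith

end Pool.Agent.Helper26.TD
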