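import Pool.Agent.Helper26.TD.Core
import Pool.Agent.Helper26.TD.Link

/-!
# TD-8 (MP_277c78_nt): auxiliary parts
-/

set_option autoImplicit false

namespace Pool.Agent.Helper26.TD

open Finset Filter Topology
open Pool.Agent.Helper16.UB (Admissible M)
open Pool.Agent.Helper34.RB (Bdd)

lemma Icc_le {a n : ℕ} (ha : 1 ≤ a) (h : a ≤ n) :
    ∑ k ∈ Icc a n, 1 / (k : ℝ) ≤ 1 / (a : ℝ) + (Real.log n - Real.log a) := by
  induction n, h using Nat.le_induction with
  | base => simp
  | succ n hn ih =>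
    rw [sum_Icc_succ_top (by omega : a ≤ n + 1)]
    have hn0 : (0 : ℝ) < n := by exact_mod_cast (by omega : 0 < n)
    have h1 : 1 / ((n : ℝ) + 1) ≤ Real.log ((n : ℝ) + 1) - Real.log n := by
      rw [← Real.log_div (by positivity) (by positivity)]
      have := Real.one_sub_inv_le_log_of_pos (x := ((n : ℝ) + 1) / n) (by positivity)
      refine le_trans (le_of_eq ?_) this
      field_simp
      ring
    push_cast
    linarith

theorem tail_part {N Y : ℕ} (hY : 1 ≤ Y) :
    ∑ n ∈ (Icc 1 N).filter (fun n => N < n * Y), 1 / (n : ℝ) ≤ 1 + Real.log Y := by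
  rcases Nat.eq_zero_or_pos N with rfl | hN
  · simp
    exact add_nonneg zero_le_one (Real.log_nonneg (by exact_mod_cast hY))
  have hq := Nat.zero_le (N / Y)
  set a := N / Y + 1 with ha
  have haN : a ≤ N ∨ Y = 1 := by
    rcases Nat.lt_or_ge 1 Y with h | h
    · left
      have := Nat.div_lt_self hN h
      omega
    · right; omega
  rcases haN with h | h
  · have hsub : (Icc 1 N).filter (fun n => N < n * Y) ⊆ Icc a N := by
      intro n hn
      rw [mem_filter, mem_Icc] at hn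
      rw [mem_Icc]
      refine ⟨?_, hn.1.2⟩
      have : N / Y < n := (Nat.div_lt_iff_lt_mul (by omega)).2 hn.2
      omega
    refine (sum_le_sum_of_subset_of_nonneg hsub fun i _ _ => by positivity).trans ?_
    refine (Icc_le (by omega) h).trans ?_
    have haY : N < a * Y := by
      rw [ha]
      exact Nat.lt_mul_of_div_lt (by omega) (by omega)
    have ha0 : (0 : ℝ) < a := by exact_mod_cast (by omega : 0 < a)
    have h1 : 1 / (a : ℝ) ≤ 1 := by
      rw [div_le_one ha0]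
      exact_mod_cast (by omega : 1 ≤ a)
    have h2 : Real.log N - Real.log a ≤ Real.log Y := by
      have hN0 : (0 : ℝ) < N := by exact_mod_cast hN
      have hY0 : (0 : ℝ) < Y := by exact_mod_cast (by omega : 0 < Y)
      have : Real.log N ≤ Real.log ((a : ℝ) * Y) := by
        refine Real.log_le_log hN0 ?_
        exact_mod_cast haY.le
      rw [Real.log_mul ha0.ne' hY0.ne'] at this
      linarith
    linarith
  · subst h
    have : (Icc 1 N).filter (fun n => N < n * 1) = ∅ := by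
      rw [filter_eq_empty_iff]
      intro n hn
      rw [mem_Icc] at hn
      omega
    rw [this]
    simp

/-- the core sum is at most a density times `exp L` plus the lower tail -/
theorem B_le {r n k0 : ℕ} {L : ℝ} (hL : 0 ≤ L) :
    ∑ k ∈ range n, td r k * L ^ k / (k.factorial : ℝ) ≤
      td r k0 * Real.exp L + ∑ k ∈ range k0, L ^ k / (k.factorial : ℝ) := by
  have h0 : ∀ k : ℕ, 0 ≤ L ^ k / (k.factorial : ℝ) := fun k => by positivity
  have h1 : ∀ k ∈ range n, td r k * L ^ k / (k.factorial : ℝ) ≤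
      td r k0 * (L ^ k / (k.factorial : ℝ)) + (if k < k0 then L ^ k / (k.factorial : ℝ) else 0) := by
    intro k _
    rw [mul_div_assoc]
    by_cases hk : k < k0
    · rw [if_pos hk]
      have := mul_le_mul_of_nonneg_right (td_le_one r k) (h0 k)
      have h2 := mul_nonneg (td_nonneg r k0) (h0 k)
      linarith
    · rw [if_neg hk, add_zero]
      exact mul_le_mul_of_nonneg_right (td_anti r (by omega)) (h0 k)
  refine (sum_le_sum h1).trans ?_
  rw [sum_add_distrib, ← mul_sum, ← sum_filter]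
  refine add_le_add ?_ ?_
  · exact mul_le_mul_of_nonneg_left (Real.sum_le_exp_of_nonneg hL n) (td_nonneg r k0)
  · refine sum_le_sum_of_subset_of_nonneg ?_ fun i _ _ => h0 i
    intro k hk
    rw [mem_filter] at hk
    exact mem_range.2 hk.2

/-- a number whose `P`-part is squarefree -/
lemma factor {P : Finset ℕ} (hP : ∀ p ∈ P, p.Prime) {n : ℕ} (hn : 0 < n)
    (hsq : ∀ p ∈ P, ¬ p ^ 2 ∣ n) :
    ∃ c : ℕ, 0 < c ∧ (∀ p ∈ P, ¬ p ∣ c) ∧ c * ∏ p ∈ P.filter (fun p => p ∣ n), p = n := by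
  have hd : (∏ p ∈ P.filter (fun p => p ∣ n), p) ∣ n := by
    refine Finset.prod_primes_dvd n ?_ ?_
    · intro p hp
      exact (hP p (mem_filter.1 hp).1).prime
    · intro p hp
      exact (mem_filter.1 hp).2
  obtain ⟨c, hc⟩ := hd
  have hc' : c * ∏ p ∈ P.filter (fun p => p ∣ n), p = n := by rw [mul_comm]; exact hc.symm
  refine ⟨c, ?_, ?_, hc'⟩
  · rcases Nat.eq_zero_or_pos c with h | h
    · rw [h, zero_mul] at hc'
      omega
    · exact h
  · intro p hp hpc
    have hpn : p ∣ n := hc' ▸ Dvd.dvd.mul_right hpc _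
    have hmem : p ∈ P.filter (fun p => p ∣ n) := mem_filter.2 ⟨hp, hpn⟩
    apply hsq p hp
    rw [← hc', pow_two]
    exact mul_dvd_mul hpc (Finset.dvd_prod_of_mem (fun p => p) hmem)

open Classical in
theorem rest_part {r N Y : ℕ} (hr : 2 ≤ r) {A : Finset ℕ} (hA : Admissible r N A) {P : Finset ℕ}
    (hP : ∀ p ∈ P, p.Prime) (hne : P.Nonempty) (B : Finset ℕ) (hBA : B ⊆ A)
    (hsq : ∀ n ∈ B, ∀ p ∈ P, ¬ p ^ 2 ∣ n)
    (hB : ∀ n ∈ B, ∀ c : ℕ, c ∣ n → (∀ p ∈ P, ¬ p ∣ c) → c * Y ≤ N) :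
    ∑ n ∈ B, 1 / (n : ℝ) ≤
      (∑ c ∈ (Icc 1 N).filter (fun c => c * Y ≤ N ∧ ∀ p ∈ P, ¬ p ∣ c), 1 / (c : ℝ)) *
        ∑ k ∈ range (P.card + 1), td r k * LL P ^ k / (k.factorial : ℝ) := by
  set C := (Icc 1 N).filter (fun c => c * Y ≤ N ∧ ∀ p ∈ P, ¬ p ∣ c) with hC
  have h1 : ∀ n ∈ B, 1 / (n : ℝ) ≤ ∑ c ∈ C, ∑ s ∈ P.powerset,
      if c * ∏ p ∈ s, p = n then 1 / (c : ℝ) * ∏ p ∈ s, 1 / (p : ℝ) else 0 := by
    intro n hn
    have hnA := hA.1 (hBA hn)
    rw [mem_Icc] at hnA
    obtain ⟨c, hc0, hcP, hcn⟩ := factor hP (by omega : 0 < n) (hsq n hn)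
    have hcn' : c ∣ n := ⟨_, hcn.symm⟩
    have hcC : c ∈ C := by
      rw [hC, mem_filter, mem_Icc]
      exact ⟨⟨hc0, (Nat.le_of_dvd (by omega) hcn').trans hnA.2⟩, hB n hn c hcn' hcP, hcP⟩
    have hs : P.filter (fun p => p ∣ n) ∈ P.powerset := mem_powerset.2 (filter_subset _ _)
    have hnn : ∀ c ∈ C, ∀ s ∈ P.powerset,
        (0 : ℝ) ≤ if c * ∏ p ∈ s, p = n then 1 / (c : ℝ) * ∏ p ∈ s, 1 / (p : ℝ) else 0 := by
      intro c _ s _
      split_ifs
      · exact mul_nonneg (by positivity) (prod_nonneg fun p _ => by positivity)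
      · exact le_rfl
    refine le_trans ?_ (single_le_sum (f := fun c => ∑ s ∈ P.powerset,
      if c * ∏ p ∈ s, p = n then 1 / (c : ℝ) * ∏ p ∈ s, 1 / (p : ℝ) else 0)
      (fun c hc => sum_nonneg (hnn c hc)) hcC)
    refine le_trans ?_ (single_le_sum (f := fun s =>
      if c * ∏ p ∈ s, p = n then 1 / (c : ℝ) * ∏ p ∈ s, 1 / (p : ℝ) else 0)
      (hnn c hcC) hs)
    rw [if_pos hcn]
    apply le_of_eq
    conv_lhs => rw [← hcn]
    push_cast
    rw [one_div, mul_inv, ← prod_inv_distrib]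
    simp only [one_div]
  refine (sum_le_sum h1).trans ?_
  rw [sum_comm]
  rw [sum_mul]
  refine sum_le_sum fun c hc => ?_
  rw [sum_comm]
  have hc0 : 0 < c := by
    rw [hC, mem_filter, mem_Icc] at hc
    omega
  refine le_trans ?_ (mul_le_mul_of_nonneg_left (core hr hA hP hne hc0) (by positivity))
  rw [mul_sum, sum_filter]
  refine sum_le_sum fun s _ => ?_
  rw [← sum_filter]
  by_cases hs : c * ∏ p ∈ s, p ∈ A
  · rw [if_pos hs, sum_const]
    have hcard : (B.filter (fun n => c * ∏ p ∈ s, p = n)).card ≤ 1 := by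
      rw [card_le_one]
      intro a ha b hb
      rw [mem_filter] at ha hb
      rw [← ha.2, ← hb.2]
    have hnn : 0 ≤ 1 / (c : ℝ) * ∏ p ∈ s, 1 / (p : ℝ) :=
      mul_nonneg (by positivity) (prod_nonneg fun p _ => by positivity)
    rw [nsmul_eq_mul]
    have : ((B.filter (fun n => c * ∏ p ∈ s, p = n)).card : ℝ) ≤ 1 := by exact_mod_cast hcard
    nlinarith
  · rw [if_neg hs]
    have : B.filter (fun n => c * ∏ p ∈ s, p = n) = ∅ := by
      rw [filter_eq_empty_iff]
      intro n hn h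
      exact hs (h ▸ hBA hn)
    rw [this, sum_empty]

end Pool.Agent.Helper26.TD
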